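import Mathlib

/-!
# The classical rounding of Beck and Fiala, from an arbitrary starting point
-/

set_option autoImplicit false

namespace Pool.Agent.H778.CR

open Finset

variable {m n : ℕ}

/-- moving a point of the cube until a coordinate becomes integral -/
lemma move (y z : Fin n → ℝ) (hy : ∀ i, |y i| ≤ 1) (hz : z ≠ 0)
    (hzy : ∀ i, |y i| = 1 → z i = 0) :
    ∃ s : ℝ, (∀ i, |y i + s * z i| ≤ 1) ∧ ∃ i, |y i| < 1 ∧ |y i + s * z i| = 1 := by
  classical
  set F : Finset (Fin n) := univ.filter (fun i => z i ≠ 0) with hF
  have hFne : F.Nonempty := by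
    obtain ⟨i, hi⟩ := Function.ne_iff.1 hz
    exact ⟨i, by simp [hF]; simpa using hi⟩
  let τ : Fin n → ℝ := fun i => (1 - (if 0 < z i then 1 else -1) * y i) / |z i|
  obtain ⟨a, ha, hmin⟩ := F.exists_min_image τ hFne
  have haz : z a ≠ 0 := (mem_filter.1 ha).2
  have hlt : ∀ i, z i ≠ 0 → |y i| < 1 := by
    intro i hi
    exact lt_of_le_of_ne (hy i) fun h => hi (hzy i h)
  have hτ : ∀ i, z i ≠ 0 → 0 < τ i := by
    intro i hi
    have h1 := abs_lt.1 (hlt i hi)
    have h2 := abs_pos.2 hi
    apply div_pos _ h2
    split_ifs <;> linarith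
  refine ⟨τ a, fun i => ?_, a, hlt a haz, ?_⟩
  · by_cases hi : z i = 0
    · rw [hi, mul_zero, add_zero]; exact hy i
    · have h1 : τ a ≤ τ i := hmin i (by simp [hF, hi])
      have h2 := abs_pos.2 hi
      have h3 : τ a * |z i| ≤ 1 - (if 0 < z i then 1 else -1) * y i := by
        have h4 : τ i * |z i| = 1 - (if 0 < z i then 1 else -1) * y i :=
          div_mul_cancel₀ _ h2.ne'
        rw [← h4]
        exact mul_le_mul_of_nonneg_right h1 h2.le
      have h5 := hτ a haz
      have h6 := abs_le.1 (hy i)
      rcases lt_or_gt_of_ne hi with h | h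
      · rw [abs_of_neg h, if_neg (by linarith)] at h3
        rw [abs_le]
        constructor
        · nlinarith
        · nlinarith
      · rw [abs_of_pos h, if_pos h] at h3
        rw [abs_le]
        constructor
        · nlinarith
        · nlinarith
  · have h2 := abs_pos.2 haz
    have h4 : τ a * |z a| = 1 - (if 0 < z a then 1 else -1) * y a :=
      div_mul_cancel₀ _ h2.ne'
    rcases lt_or_gt_of_ne haz with h | h
    · rw [abs_of_neg h, if_neg (by linarith)] at h4
      have : y a + τ a * z a = -1 := by linarith
      rw [this]; norm_num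
    · rw [abs_of_pos h, if_pos h] at h4
      have : y a + τ a * z a = 1 := by linarith
      rw [this]; norm_num

/-- a nonzero vector supported on `F` and balanced on fewer than `|F|` sets -/
lemma exists_dir (S : Fin m → Finset (Fin n)) (F : Finset (Fin n)) (H : Finset (Fin m))
    (hHF : H.card < F.card) :
    ∃ z : Fin n → ℝ, z ≠ 0 ∧ (∀ i, i ∉ F → z i = 0) ∧ ∀ j ∈ H, ∑ i ∈ S j, z i = 0 := by
  classical
  let ext : (F → ℝ) → (Fin n → ℝ) := fun w i => if h : i ∈ F then w ⟨i, h⟩ else 0
  let f : (F → ℝ) →ₗ[ℝ] (H → ℝ) :=
    { toFun := fun w j => ∑ i ∈ S j, ext w i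
      map_add' := fun w w' => by
        funext j
        simp only [Pi.add_apply]
        rw [← Finset.sum_add_distrib]
        refine Finset.sum_congr rfl fun i _ => ?_
        simp only [ext]
        split_ifs <;> simp
      map_smul' := fun c w => by
        funext j
        simp only [Pi.smul_apply, smul_eq_mul, RingHom.id_apply]
        rw [Finset.mul_sum]
        refine Finset.sum_congr rfl fun i _ => ?_
        simp only [ext]
        split_ifs <;> simp }
  have hker : LinearMap.ker f ≠ ⊥ := by
    apply LinearMap.ker_ne_bot_of_finrank_lt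
    simpa using hHF
  obtain ⟨w, hw, hw0⟩ := Submodule.exists_mem_ne_zero_of_ne_bot hker
  refine ⟨ext w, ?_, fun i hi => by simp [ext, hi], fun j hj => ?_⟩
  · intro h
    apply hw0
    funext i
    have := congrFun h i.1
    simpa [ext] using this
  · have := congrFun (LinearMap.mem_ker.1 hw) ⟨j, hj⟩
    exact this

theorem bf_round (S : Fin m → Finset (Fin n)) (t : ℕ) (ht : 1 ≤ t)
    (hS : ∀ i, (univ.filter (fun j => i ∈ S j)).card ≤ t) :
    ∀ (N : ℕ) (y : Fin n → ℝ), (∀ i, |y i| ≤ 1) → (univ.filter (fun i => |y i| < 1)).card = N →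
      ∃ ε : Fin n → ℝ, (∀ i, ε i = 1 ∨ ε i = -1) ∧ (∀ i, |y i| = 1 → ε i = y i) ∧
        ∀ j, |∑ i ∈ S j, (ε i - y i)| < 2 * t := by
  classical
  have ht' : (1:ℝ) ≤ t := by exact_mod_cast ht
  intro N
  induction N using Nat.strong_induction_on with
  | _ N ih =>
    intro y hy hN
    set F : Finset (Fin n) := univ.filter (fun i => |y i| < 1) with hF
    set H : Finset (Fin m) := univ.filter (fun j => t < (S j ∩ F).card) with hH
    -- light sets are harmless
    have hlight : ∀ ε : Fin n → ℝ, (∀ i, ε i = 1 ∨ ε i = -1) → (∀ i, |y i| = 1 → ε i = y i) →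
        ∀ j, j ∉ H → |∑ i ∈ S j, (ε i - y i)| < 2 * t := by
      intro ε hε hεy j hj
      have hc : (S j ∩ F).card ≤ t := by
        by_contra h
        exact hj (by simp only [hH, mem_filter, mem_univ, true_and]; omega)
      have h1 : ∑ i ∈ S j, (ε i - y i) = ∑ i ∈ S j ∩ F, (ε i - y i) := by
        symm
        apply Finset.sum_subset Finset.inter_subset_left
        intro i hi hiF
        have : ¬ |y i| < 1 := fun h => hiF (by simp [hF, hi, h])
        have h2 : |y i| = 1 := le_antisymm (hy i) (not_lt.1 this)
        rw [hεy i h2, sub_self]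
      rw [h1]
      rcases (S j ∩ F).eq_empty_or_nonempty with he | hne
      · rw [he]; simp; linarith
      · have h2 : ∀ i ∈ S j ∩ F, |ε i - y i| < 2 := by
          intro i hi
          have h3 : |y i| < 1 := by
            have := (mem_inter.1 hi).2
            simpa [hF] using this
          have h4 := abs_lt.1 h3
          rw [abs_lt]
          rcases hε i with h | h <;> rw [h] <;> constructor <;> linarith
        calc |∑ i ∈ S j ∩ F, (ε i - y i)| ≤ ∑ i ∈ S j ∩ F, |ε i - y i| :=
              Finset.abs_sum_le_sum_abs _ _
          _ < ∑ i ∈ S j ∩ F, (2:ℝ) := Finset.sum_lt_sum_of_nonempty hne h2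
          _ = 2 * (S j ∩ F).card := by rw [Finset.sum_const, nsmul_eq_mul]; ring
          _ ≤ 2 * t := by
              have : ((S j ∩ F).card : ℝ) ≤ t := by exact_mod_cast hc
              linarith
    rcases Nat.eq_zero_or_pos N with hN0 | hN0
    · have hF0 : F = ∅ := Finset.card_eq_zero.1 (by rw [hN, hN0])
      have h1 : ∀ i, |y i| = 1 := by
        intro i
        by_contra h
        have : i ∈ F := by
          simp only [hF, mem_filter, mem_univ, true_and]
          exact lt_of_le_of_ne (hy i) h
        rw [hF0] at this
        simp at this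
      refine ⟨y, fun i => ?_, fun _ _ => rfl, fun j => ?_⟩
      · exact eq_or_eq_neg_of_abs_eq (h1 i)
      · simp; linarith
    · have hcard : H.card < F.card := by
        have h1 : ∑ j, (S j ∩ F).card ≤ t * F.card := by
          have h2 : ∀ j, (S j ∩ F).card = ∑ i ∈ F, if i ∈ S j then 1 else 0 := by
            intro j
            rw [← Finset.card_filter, Finset.inter_comm, Finset.filter_mem_eq_inter]
          simp_rw [h2]
          rw [Finset.sum_comm]
          calc ∑ i ∈ F, ∑ j, (if i ∈ S j then 1 else 0) ≤ ∑ i ∈ F, t := by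
                refine Finset.sum_le_sum fun i _ => ?_
                rw [← Finset.card_filter]
                exact hS i
            _ = t * F.card := by rw [Finset.sum_const, smul_eq_mul, mul_comm]
        have h3 : H.card * (t + 1) ≤ ∑ j, (S j ∩ F).card := by
          calc H.card * (t + 1) = ∑ j ∈ H, (t + 1) := by rw [Finset.sum_const, smul_eq_mul]
            _ ≤ ∑ j ∈ H, (S j ∩ F).card := by
                refine Finset.sum_le_sum fun j hj => ?_
                have := (mem_filter.1 hj).2
                omega
            _ ≤ _ := Finset.sum_le_sum_of_subset (Finset.subset_univ _)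
        have h4 : 0 < F.card := by omega
        by_contra hcon
        push Not at hcon
        have h5 : F.card * (t + 1) ≤ H.card * (t + 1) := Nat.mul_le_mul_right _ hcon
        nlinarith
      obtain ⟨z, hz0, hzF, hzH⟩ := exists_dir S F H hcard
      obtain ⟨s, hs1, a, ha1, ha2⟩ := move y z hy hz0 (fun i hi => hzF i (by
        simp only [hF, mem_filter, mem_univ, true_and]
        rw [hi]
        exact lt_irrefl 1))
      have hsub : univ.filter (fun i => |y i + s * z i| < 1) ⊂ F := by
        refine (Finset.ssubset_iff_of_subset ?_).2 ⟨a, ?_, ?_⟩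
        · intro i hi
          simp only [mem_filter, mem_univ, true_and] at hi
          simp only [hF, mem_filter, mem_univ, true_and]
          by_contra h
          have h1 : |y i| = 1 := le_antisymm (hy i) (not_lt.1 h)
          have h2 : z i = 0 := hzF i (by
            simp only [hF, mem_filter, mem_univ, true_and]
            exact h)
          rw [h2, mul_zero, add_zero, h1] at hi
          exact lt_irrefl 1 hi
        · simp only [hF, mem_filter, mem_univ, true_and]
          exact ha1
        · simp only [mem_filter, mem_univ, true_and]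
          rw [ha2]
          exact lt_irrefl 1
      obtain ⟨ε, hε1, hε2, hε3⟩ := ih _ (by rw [← hN]; exact Finset.card_lt_card hsub)
        (fun i => y i + s * z i) hs1 rfl
      have hεy : ∀ i, |y i| = 1 → ε i = y i := by
        intro i hi
        have h2 : z i = 0 := hzF i (by
          simp only [hF, mem_filter, mem_univ, true_and]
          rw [hi]; exact lt_irrefl 1)
        have h3 := hε2 i (by simp only [h2, mul_zero, add_zero, hi])
        rw [h3]
        simp [h2]
      refine ⟨ε, hε1, hεy, fun j => ?_⟩
      by_cases hj : j ∈ H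
      · have h1 := hε3 j
        have h2 : ∑ i ∈ S j, (ε i - (y i + s * z i)) = ∑ i ∈ S j, (ε i - y i) := by
          have h3 : ∑ i ∈ S j, (ε i - (y i + s * z i)) =
              ∑ i ∈ S j, (ε i - y i) - s * ∑ i ∈ S j, z i := by
            rw [Finset.mul_sum, ← Finset.sum_sub_distrib]
            exact Finset.sum_congr rfl fun i _ => by ring
          rw [h3, hzH j hj, mul_zero, sub_zero]
        rw [h2] at h1
        exact h1
      · exact hlight ε hε1 hεy j hj

end Pool.Agent.H778.CR
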