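import Mathlib
import Pool.Graph.R_seed8.H801R3.SB.Count
import Pool.Graph.R_seed8.H801R3.SB.Bound

/-!
# Counting signings from the existence of roundings

Let `v_1, …, v_n` span `ℝ^d` and let `G` be a set of signings such that every point `x` of
`[-1,1]^n` with `∑ x_i v_i = 0` for which the vectors `v_i` with `|x_i| < 1` are linearly
independent can be rounded to an element of `G`. Then `G` has at least
`2^n √(d!) / (8 √n)^d` elements.
-/

set_option autoImplicit false

open MeasureTheory Filter Topology Matrix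
open scoped ENNReal

namespace Pool.Agent.H778.CR

open Pool.Agent.H801R3.SB

variable {n d : ℕ}

lemma sg_inj {a b : Bool} (h : sg a = sg b) : a = b := by
  cases a <;> cases b <;> simp only [sg, if_true, Bool.false_eq_true, if_false] at h ⊢ <;>
    (exfalso; norm_num at h)

/-- every balanced point whose fractional coordinates belong to at most `r` linearly independent
vectors can be rounded to an element of `G` -/
def Rounds {κ : Type*} (v : Fin n → κ → ℝ) (r : ℕ) (G : Finset (Fin n → Bool)) : Prop :=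
  ∀ x : Fin n → ℝ, (∀ i, |x i| ≤ 1) → ∑ i, x i • v i = 0 →
    (∃ J : Finset (Fin n), J.card ≤ r ∧ LinearIndependent ℝ (fun j : J => v j) ∧
      ∀ i, i ∉ J → |x i| = 1) →
      ∃ ε ∈ G, ∀ i, |x i| = 1 → sg (ε i) = x i

lemma exists_eps (v : Fin n → Fin d → ℝ) (G : Finset (Fin n → Bool)) (hG : Rounds v d G)
    (a : Fin d → Fin n) (hdet : (Vm v a).det ≠ 0) (η : Fin n → Bool) (hη : η ∈ Sa v a) :
    ∃ ε ∈ G, ∀ i : Off a, ε i = η i := by
  classical
  simp only [Sa, Finset.mem_filter, Finset.mem_univ, true_and] at hη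
  obtain ⟨_, x, hx, hxη, hx0⟩ := hη
  let J : Finset (Fin n) := Finset.univ.image a
  have hJ : J.card ≤ d := by
    have := Finset.card_image_le (s := (Finset.univ : Finset (Fin d))) (f := a)
    simpa using this
  have habs : ∀ i : Off a, |x i| = 1 := by
    intro i
    rw [hxη i]
    rcases sg_cases (η i) with h | h <;> rw [h] <;> simp
  have hrow : LinearIndependent ℝ (fun k : Fin d => v (a k)) :=
    Matrix.linearIndependent_rows_of_det_ne_zero (A := Vm v a) hdet
  have hJmem : ∀ j : J, ∃ k, a k = j := by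
    rintro ⟨j, hj⟩
    simpa [J] using hj
  choose g hg using hJmem
  have hind : LinearIndependent ℝ (fun j : J => v j) := by
    have h1 : (fun j : J => v j) = (fun k : Fin d => v (a k)) ∘ g := by
      funext j
      simp only [Function.comp_apply, hg]
    rw [h1]
    refine hrow.comp g fun j j' h => ?_
    apply Subtype.ext
    rw [← hg j, ← hg j', h]
  obtain ⟨ε, hε, h⟩ := hG x hx hx0 ⟨J, hJ, hind, fun i hi => habs ⟨i, fun ⟨k, hk⟩ => hi (by
    simp only [J, Finset.mem_image, Finset.mem_univ, true_and]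
    exact ⟨k, hk⟩)⟩⟩
  refine ⟨ε, hε, fun i => sg_inj ?_⟩
  rw [h i (habs i), hxη i]

lemma card_Sa_le (v : Fin n → Fin d → ℝ) (G : Finset (Fin n → Bool)) (hG : Rounds v d G)
    (a : Fin d → Fin n) (hdet : (Vm v a).det ≠ 0) : (Sa v a).card ≤ G.card := by
  classical
  choose f hf1 hf2 using fun (η : {η // η ∈ Sa v a}) => exists_eps v G hG a hdet η.1 η.2
  have hinj : Function.Injective f := by
    intro η η' h
    apply Subtype.ext
    funext i
    by_cases hi : ∃ k, a k = i
    · obtain ⟨k, rfl⟩ := hi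
      have h1 : η.1 (a k) = true := by
        have := η.2
        simp only [Sa, Finset.mem_filter, Finset.mem_univ, true_and] at this
        exact this.1 k
      have h2 : η'.1 (a k) = true := by
        have := η'.2
        simp only [Sa, Finset.mem_filter, Finset.mem_univ, true_and] at this
        exact this.1 k
      rw [h1, h2]
    · rw [← hf2 η ⟨i, hi⟩, ← hf2 η' ⟨i, hi⟩, h]
  have h1 : (Sa v a).card = Fintype.card {η // η ∈ Sa v a} := by simp
  rw [h1, ← Finset.card_univ]
  exact Finset.card_le_card_of_injOn f (fun η _ => hf1 η) (fun _ _ _ _ h => hinj h)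

theorem count_bound (v : Fin n → Fin d → ℝ) (G : Finset (Fin n → Bool)) (hG : Rounds v d G)
    (hspan : ∀ u : Fin d → ℝ, (∀ i, u ⬝ᵥ v i = 0) → u = 0) :
    (d.factorial : ℝ≥0∞) ≤ G.card * (ENNReal.ofReal (2 ^ d * (1 / 2) ^ n) *
      ((∑ a : Fin d → Fin n, ENNReal.ofReal |(Vm v a).det|) *
        ∫⁻ y : Fin d → ℝ, ∏ i, ENNReal.ofReal (1 / Real.cosh (y ⬝ᵥ v i)))) := by
  classical
  set I : ℝ≥0∞ := ∫⁻ y : Fin d → ℝ, ∏ i, ENNReal.ofReal (1 / Real.cosh (y ⬝ᵥ v i)) with hI
  set K : ℝ≥0∞ := ENNReal.ofReal (2 ^ d * (1 / 2) ^ n) with hK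
  have hW : ∫⁻ c : Fin n → ℝ, ∏ i, lf (c i) = 1 := by
    rw [lintegral_fintype_prod (fun _ => lf) (fun _ => measurable_lf)]
    simp [lf_total]
  have hWm : Measurable (fun c : Fin n → ℝ => ∏ i, lf (c i)) :=
    Finset.measurable_prod _ (fun i _ => measurable_lf.comp (measurable_pi_apply i))
  calc (d.factorial : ℝ≥0∞) = ∫⁻ c : Fin n → ℝ, (d.factorial : ℝ≥0∞) * ∏ i, lf (c i) := by
        rw [lintegral_const_mul _ hWm, hW, mul_one]
    _ ≤ ∫⁻ c : Fin n → ℝ, ∑ a ∈ Finset.univ.filter (fun a : Fin d → Fin n => (Vm v a).det ≠ 0),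
        ∑ η ∈ Sa v a, integ v a (fun i => sg (η i)) c := by
        apply lintegral_mono_ae
        filter_upwards [generic v] with c hc
        exact pointwise_count v hspan c hc
    _ = ∑ a ∈ Finset.univ.filter (fun a : Fin d → Fin n => (Vm v a).det ≠ 0),
        ∑ η ∈ Sa v a, ∫⁻ c, integ v a (fun i => sg (η i)) c := by
        rw [lintegral_finsetSum]
        · apply Finset.sum_congr rfl
          intro a _
          rw [lintegral_finsetSum]
          intro η _
          exact measurable_integ v a _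
        · intro a _
          apply Finset.measurable_sum
          intro η _
          exact measurable_integ v a _
    _ ≤ ∑ a ∈ Finset.univ.filter (fun a : Fin d → Fin n => (Vm v a).det ≠ 0),
        ∑ η ∈ Sa v a, ENNReal.ofReal |(Vm v a).det| * (K * I) := by
        apply Finset.sum_le_sum
        intro a ha
        rw [Finset.mem_filter] at ha
        apply Finset.sum_le_sum
        intro η hη
        simp only [Sa, Finset.mem_filter, Finset.mem_univ, true_and] at hη
        obtain ⟨_, x, hx, hxη, hx0⟩ := hη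
        have h1 : integ v a (fun i => sg (η i)) = integ v a x := by
          funext c
          unfold integ
          congr 1
          apply Finset.prod_congr rfl
          intro i _
          rw [hxη i]
        rw [h1]
        exact weight_bound v a ha.2 x hx hx0 (fun i => by rw [hxη i]; exact sg_cases _)
    _ ≤ ∑ a ∈ Finset.univ.filter (fun a : Fin d → Fin n => (Vm v a).det ≠ 0),
        G.card * (ENNReal.ofReal |(Vm v a).det| * (K * I)) := by
        apply Finset.sum_le_sum
        intro a ha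
        rw [Finset.mem_filter] at ha
        rw [Finset.sum_const, nsmul_eq_mul]
        have h2 : ((Sa v a).card : ℝ≥0∞) ≤ G.card := by
          exact_mod_cast card_Sa_le v G hG a ha.2
        exact mul_le_mul' h2 le_rfl
    _ ≤ ∑ a : Fin d → Fin n, G.card * (ENNReal.ofReal |(Vm v a).det| * (K * I)) :=
        Finset.sum_le_sum_of_subset (Finset.filter_subset _ _)
    _ = _ := by
        rw [← Finset.mul_sum, ← Finset.sum_mul]
        ring

theorem lower_span (v : Fin n → Fin d → ℝ) (G : Finset (Fin n → Bool)) (hG : Rounds v d G)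
    (hn : 0 < n) (hspan : ∀ u, (∀ i, u ⬝ᵥ v i = 0) → u = 0) :
    (2:ℝ)^n * √(d.factorial : ℝ) ≤ (G.card : ℝ) * (8^d * √(n:ℝ)^d) := by
  have h1 := count_bound v G hG hspan
  have h2 := det_bound v hn hspan
  have h3 : (d.factorial : ℝ≥0∞) ≤ (G.card : ℝ≥0∞) * (ENNReal.ofReal (2^d*(1/2)^n) *
      ENNReal.ofReal (√(5*Real.pi)^d * √(d.factorial : ℝ) * √(n:ℝ)^d)) := by
    refine h1.trans ?_
    gcongr
  have hfac : (0:ℝ) < (d.factorial : ℝ) := by exact_mod_cast d.factorial_pos
  have h4 : (d.factorial : ℝ) ≤ (G.card : ℝ) * ((2^d*(1/2)^n) *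
      (√(5*Real.pi)^d * √(d.factorial : ℝ) * √(n:ℝ)^d)) := by
    rw [← ENNReal.ofReal_mul (by positivity)] at h3
    have e1 : (d.factorial : ℝ≥0∞) = ENNReal.ofReal (d.factorial : ℝ) := by
      rw [ENNReal.ofReal_natCast]
    have e2 : (G.card : ℝ≥0∞) = ENNReal.ofReal (G.card : ℝ) := by
      rw [ENNReal.ofReal_natCast]
    rw [e1, e2, ← ENNReal.ofReal_mul (by positivity)] at h3
    exact (ENNReal.ofReal_le_ofReal_iff (by positivity)).mp h3
  have hs : (0:ℝ) < √(d.factorial : ℝ) := Real.sqrt_pos.mpr hfac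
  have hss : √(d.factorial : ℝ) * √(d.factorial : ℝ) = d.factorial := Real.mul_self_sqrt hfac.le
  have h5 : √(5*Real.pi) ≤ 4 := by
    rw [show (4:ℝ) = √(16) by
      rw [show (16:ℝ) = 4^2 by norm_num]; exact (Real.sqrt_sq (by norm_num)).symm]
    apply Real.sqrt_le_sqrt
    have := Real.pi_lt_d2
    linarith
  have h6 : √(d.factorial : ℝ) ≤ (G.card : ℝ) * ((2^d*(1/2)^n) *
      (√(5*Real.pi)^d * √(n:ℝ)^d)) := by
    have : √(d.factorial : ℝ) * √(d.factorial : ℝ) ≤ ((G.card : ℝ) * ((2^d*(1/2)^n) *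
      (√(5*Real.pi)^d * √(n:ℝ)^d))) * √(d.factorial : ℝ) := by
      rw [hss]
      refine h4.trans (le_of_eq (by ring))
    exact le_of_mul_le_mul_right this hs
  have h7 : √(5*Real.pi)^d ≤ 4^d := pow_le_pow_left₀ (Real.sqrt_nonneg _) h5 d
  calc (2:ℝ)^n * √(d.factorial : ℝ) ≤ 2^n * ((G.card : ℝ) * ((2^d*(1/2)^n) *
      (√(5*Real.pi)^d * √(n:ℝ)^d))) := by gcongr
    _ ≤ 2^n * ((G.card : ℝ) * ((2^d*(1/2)^n) * (4^d * √(n:ℝ)^d))) := by gcongr
    _ = (G.card : ℝ) * (8^d * √(n:ℝ)^d) := by
      have e : (2:ℝ)^n * (1/2)^n = 1 := by rw [← mul_pow]; norm_num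
      have e8 : (8:ℝ)^d = 2^d * 4^d := by rw [← mul_pow]; norm_num
      rw [e8]
      calc (2:ℝ)^n * ((G.card : ℝ) * ((2^d*(1/2)^n) * (4^d * √(n:ℝ)^d)))
          = (2^n * (1/2)^n) * ((G.card : ℝ) * (2^d * 4^d * √(n:ℝ)^d)) := by ring
        _ = _ := by rw [e, one_mul]

/-- The rank of a family of vectors. -/
noncomputable def rk {κ : Type*} (v : Fin n → κ → ℝ) : ℕ :=
  Module.finrank ℝ (Submodule.span ℝ (Set.range v))

/-- **The counting theorem.** -/
theorem lower_rank {κ : Type*} (v : Fin n → κ → ℝ) (G : Finset (Fin n → Bool))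
    (hG : Rounds v (rk v) G) (hn : 0 < n) :
    (2:ℝ)^n * √((rk v).factorial : ℝ) ≤ (G.card : ℝ) * (8^(rk v) * √(n:ℝ)^(rk v)) := by
  classical
  set W : Submodule ℝ (κ → ℝ) := Submodule.span ℝ (Set.range v) with hW
  have hrk : rk v = Module.finrank ℝ W := rfl
  have : Module.Finite ℝ W := FiniteDimensional.span_of_finite ℝ (Set.finite_range v)
  let b := Module.finBasisOfFinrankEq ℝ W hrk.symm
  let e : W ≃ₗ[ℝ] (Fin (rk v) → ℝ) := b.equivFun
  have hmem : ∀ i, v i ∈ W := fun i => Submodule.subset_span ⟨i, rfl⟩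
  let w : Fin n → Fin (rk v) → ℝ := fun i => e ⟨v i, hmem i⟩
  have hsum : ∀ x : Fin n → ℝ, ∑ i, x i • w i = 0 → ∑ i, x i • v i = 0 := by
    intro x hx
    have h1 : e (∑ i, x i • (⟨v i, hmem i⟩ : W)) = 0 := by
      rw [map_sum]
      simp only [map_smul]
      exact hx
    have h2 : ∑ i, x i • (⟨v i, hmem i⟩ : W) = 0 := (LinearEquiv.map_eq_zero_iff e).1 h1
    have h3 := congrArg (Subtype.val) h2
    simpa using h3
  have hvw : ∀ i, v i = (W.subtype.comp e.symm.toLinearMap) (w i) := by
    intro i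
    simp [w]
  have hker : LinearMap.ker (W.subtype.comp e.symm.toLinearMap) = ⊥ := by
    rw [LinearMap.ker_eq_bot]
    exact (Submodule.subtype_injective W).comp e.symm.injective
  have hG' : Rounds w (rk v) G := by
    rintro x hx hx0 ⟨J, hJ, hind, hJx⟩
    refine hG x hx (hsum x hx0) ⟨J, hJ, ?_, hJx⟩
    have h1 : (fun j : J => v j) = (W.subtype.comp e.symm.toLinearMap) ∘ (fun j : J => w j) := by
      funext j
      exact hvw j
    rw [h1]
    exact hind.map' _ hker
  refine lower_span w G hG' hn fun u hu => ?_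
  -- the functional `z ↦ u ⬝ᵥ e z` vanishes on `W`
  let φ : W →ₗ[ℝ] ℝ := 
    { toFun := fun z => u ⬝ᵥ e z
      map_add' := fun z z' => by rw [map_add, dotProduct_add]
      map_smul' := fun c z => by rw [map_smul, dotProduct_smul]; rfl }
  have hφ : ∀ z : W, φ z = 0 := by
    rintro ⟨z, hz⟩
    induction hz using Submodule.span_induction with
    | mem z hz =>
      obtain ⟨i, rfl⟩ := hz
      exact hu i
    | zero =>
      exact map_zero φ
    | add z z' hz hz' ih ih' =>
      have : φ (⟨z, hz⟩ + ⟨z', hz'⟩) = 0 := by rw [map_add, ih, ih', add_zero]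
      exact this
    | smul c z hz ih =>
      have : φ (c • ⟨z, hz⟩) = 0 := by rw [map_smul, ih, smul_zero]
      exact this
  funext k
  have h1 := hφ (e.symm (Pi.single k 1))
  have h2 : u ⬝ᵥ e (e.symm (Pi.single k 1)) = 0 := h1
  rw [LinearEquiv.apply_symm_apply] at h2
  simpa using h2

/-- elementary: `√(r!) ≥ (r/e)^{r/2}` in the form used below -/
lemma sqrt_factorial (r : ℕ) : ((r : ℝ) / 3) ^ r ≤ (√(r.factorial : ℝ)) ^ 2 := by
  rw [Real.sq_sqrt (by positivity)]
  rcases Nat.eq_zero_or_pos r with rfl | hr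
  · simp
  have h1 : (r:ℝ)^r / r.factorial ≤ Real.exp r := by
    have h := Real.pow_div_factorial_le_exp (x := (r:ℝ)) (by positivity) r
    exact h
  have h2 : Real.exp (r:ℝ) ≤ 3 ^ r := by
    have h3 : Real.exp (r:ℝ) = Real.exp 1 ^ r := by
      rw [← Real.exp_nat_mul, mul_one]
    rw [h3]
    exact pow_le_pow_left₀ (Real.exp_pos _).le (by
      have := Real.exp_one_lt_d9
      linarith) r
  have hf : (0:ℝ) < r.factorial := by exact_mod_cast r.factorial_pos
  rw [div_pow, div_le_iff₀ (by positivity)]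
  rw [div_le_iff₀ hf] at h1
  nlinarith

end Pool.Agent.H778.CR
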