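import Mathlib
import Pool.Agent.H778.CR.Count

/-!
# Linear discrepancy and hereditary discrepancy

If every subfamily of `(w_i)_{i ∈ J}` has a signing of value at most `B`, then every point of
`[0,1]^J` has a rounding with error at most `B`.
-/

set_option autoImplicit false

open Filter Topology

namespace Pool.Agent.H778.CR

variable {n : ℕ} {κ : Type*}

/-- every subfamily of the vectors with index in `J` has a signing of value at most `B` -/
def Her (w : Fin n → κ → ℝ) (J : Finset (Fin n)) (B : ℝ) : Prop :=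
  ∀ I ⊆ J, ∃ ε : Fin n → ℝ, (∀ i, ε i = 1 ∨ ε i = -1) ∧ ∀ k, |∑ i ∈ I, ε i * w i k| ≤ B

lemma her_nonneg (w : Fin n → κ → ℝ) (J : Finset (Fin n)) (B : ℝ) (h : Her w J B) (k : κ) :
    0 ≤ B := by
  obtain ⟨ε, _, h2⟩ := h J subset_rfl
  exact (abs_nonneg _).trans (h2 k)

/-- dyadic points -/
theorem dyadic (w : Fin n → κ → ℝ) (J : Finset (Fin n)) (B : ℝ) (h : Her w J B) (m : ℕ) :
    ∀ x : Fin n → ℤ, (∀ i, 0 ≤ x i ∧ x i ≤ 2 ^ m) →
      (∀ i, i ∉ J → x i = 0 ∨ x i = 2 ^ m) →
      ∃ z : Fin n → Bool, (∀ i, x i = 0 → z i = false) ∧ (∀ i, x i = 2 ^ m → z i = true) ∧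
        ∀ k, |∑ i, ((if z i then (1:ℝ) else 0) - (x i : ℝ) / 2 ^ m) * w i k| ≤
          (1 - 1 / 2 ^ m) * B := by
  classical
  induction m with
  | zero =>
    intro x hx _
    refine ⟨fun i => decide (x i = 1), fun i hi => by simp [hi], fun i hi => by simp [hi], ?_⟩
    intro k
    have : ∀ i, ((if decide (x i = 1) = true then (1:ℝ) else 0) - (x i : ℝ) / 2 ^ 0) = 0 := by
      intro i
      have h1 := hx i
      norm_num at h1
      have h2 : x i = 0 ∨ x i = 1 := by omega
      rcases h2 with h2 | h2 <;> simp [h2]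
    simp only [this, zero_mul, Finset.sum_const_zero, abs_zero]
    norm_num
  | succ m ih =>
    intro x hx hxJ
    set I : Finset (Fin n) := Finset.univ.filter (fun i => ¬ 2 ∣ x i) with hI
    have hIJ : I ⊆ J := by
      intro i hi
      by_contra hJ
      rw [hI, Finset.mem_filter] at hi
      apply hi.2
      rcases hxJ i hJ with h1 | h1
      · rw [h1]; exact dvd_zero 2
      · rw [h1, pow_succ]; exact dvd_mul_left 2 _
    obtain ⟨ε, hε, hB⟩ := h I hIJ
    have hint : ∀ i, ∃ e : ℤ, (e = 1 ∨ e = -1) ∧ (e : ℝ) = ε i := by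
      intro i
      rcases hε i with h | h
      · exact ⟨1, Or.inl rfl, by rw [h]; norm_num⟩
      · exact ⟨-1, Or.inr rfl, by rw [h]; norm_num⟩
    choose e he1 he2 using hint
    -- the new point
    let y : Fin n → ℤ := fun i => if i ∈ I then (x i + e i) / 2 else x i / 2
    have hy1 : ∀ i, i ∈ I → 2 * y i = x i + e i := by
      intro i hi
      have h1 : ¬ 2 ∣ x i := by rw [hI, Finset.mem_filter] at hi; exact hi.2
      simp only [y, if_pos hi]
      rcases he1 i with h2 | h2 <;> rw [h2] <;> omega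
    have hy2 : ∀ i, i ∉ I → 2 * y i = x i := by
      intro i hi
      have h1 : 2 ∣ x i := by
        by_contra h
        exact hi (by rw [hI, Finset.mem_filter]; exact ⟨Finset.mem_univ _, h⟩)
      simp only [y, if_neg hi]
      omega
    have hpow : (2:ℤ) ^ (m + 1) = 2 * 2 ^ m := by ring
    have hp0 : (0:ℤ) < 2 ^ m := by positivity
    have hy : ∀ i, 0 ≤ y i ∧ y i ≤ 2 ^ m := by
      intro i
      have h1 := hx i
      rw [hpow] at h1
      by_cases hi : i ∈ I
      · have h2 := hy1 i hi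
        have h3 : ¬ 2 ∣ x i := by rw [hI, Finset.mem_filter] at hi; exact hi.2
        rcases he1 i with h4 | h4 <;> rw [h4] at h2 <;> constructor <;> omega
      · have h2 := hy2 i hi
        constructor <;> omega
    have hyJ : ∀ i, i ∉ J → y i = 0 ∨ y i = 2 ^ m := by
      intro i hi
      have hiI : i ∉ I := fun h => hi (hIJ h)
      have h2 := hy2 i hiI
      rcases hxJ i hi with h1 | h1
      · left; omega
      · right; rw [hpow] at h1; omega
    obtain ⟨z, hz0, hz1, hz⟩ := ih y hy hyJ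
    refine ⟨z, fun i hi => hz0 i ?_, fun i hi => hz1 i ?_, fun k => ?_⟩
    · have hiI : i ∉ I := by
        rw [hI, Finset.mem_filter]
        rintro ⟨_, h⟩
        exact h (by rw [hi]; exact dvd_zero 2)
      have := hy2 i hiI
      omega
    · have hiI : i ∉ I := by
        rw [hI, Finset.mem_filter]
        rintro ⟨_, h⟩
        exact h (by rw [hi, hpow]; exact dvd_mul_right 2 _)
      have := hy2 i hiI
      rw [hpow] at hi
      omega
    · have e1 : ∑ i, ((if z i then (1:ℝ) else 0) - (x i : ℝ) / 2 ^ (m + 1)) * w i k =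
          ∑ i, ((if z i then (1:ℝ) else 0) - (y i : ℝ) / 2 ^ m) * w i k +
            (1 / 2 ^ (m + 1)) * ∑ i ∈ I, ε i * w i k := by
        have e2 : ∑ i ∈ I, ε i * w i k = ∑ i, (if i ∈ I then ε i else 0) * w i k := by
          simp only [ite_mul, zero_mul]
          rw [← Finset.sum_filter, Finset.filter_mem_eq_inter, Finset.univ_inter]
        rw [e2, Finset.mul_sum, ← Finset.sum_add_distrib]
        refine Finset.sum_congr rfl fun i _ => ?_
        by_cases hi : i ∈ I
        · have h1 : (2:ℝ) * (y i : ℝ) = (x i : ℝ) + ε i := by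
            rw [← he2 i]
            exact_mod_cast hy1 i hi
          rw [if_pos hi, pow_succ]
          have h2 : (y i : ℝ) = ((x i : ℝ) + ε i) / 2 := by linarith
          rw [h2]
          field_simp
          ring
        · have h1 : (2:ℝ) * (y i : ℝ) = (x i : ℝ) := by exact_mod_cast hy2 i hi
          rw [if_neg hi, pow_succ]
          have h2 : (y i : ℝ) = (x i : ℝ) / 2 := by linarith
          rw [h2]
          field_simp
          ring
      rw [e1]
      refine (abs_add_le _ _).trans ?_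
      rw [abs_mul, abs_of_pos (by positivity : (0:ℝ) < 1 / 2 ^ (m + 1))]
      have h1 := hz k
      have h2 := mul_le_mul_of_nonneg_left (hB k) (by positivity : (0:ℝ) ≤ 1 / 2 ^ (m + 1))
      have h3 : (1 - 1 / 2 ^ m) * B + 1 / 2 ^ (m + 1) * B = (1 - 1 / 2 ^ (m + 1)) * B := by
        rw [pow_succ]
        field_simp
        ring
      linarith

/-- **Linear discrepancy**: rounding of a point of the unit cube. -/
theorem lindisc (w : Fin n → κ → ℝ) (J : Finset (Fin n)) (B : ℝ) (h : Her w J B)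
    (x : Fin n → ℝ) (hx : ∀ i, 0 ≤ x i ∧ x i ≤ 1) (hxJ : ∀ i, i ∉ J → x i = 0 ∨ x i = 1) :
    ∃ z : Fin n → Bool, (∀ i, x i = 0 → z i = false) ∧ (∀ i, x i = 1 → z i = true) ∧
      ∀ k, |∑ i, ((if z i then (1:ℝ) else 0) - x i) * w i k| ≤ B := by
  classical
  have hz : ∀ m : ℕ, ∃ z : Fin n → Bool, (∀ i, x i = 0 → z i = false) ∧
      (∀ i, x i = 1 → z i = true) ∧
      ∀ k, |∑ i, ((if z i then (1:ℝ) else 0) - (⌊2 ^ m * x i⌋ : ℝ) / 2 ^ m) * w i k| ≤ B := by
    intro m
    have hp : (0:ℝ) < 2 ^ m := by positivity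
    obtain ⟨z, h0, h1, h2⟩ := dyadic w J B h m (fun i => ⌊2 ^ m * x i⌋) (fun i => by
      constructor
      · exact Int.floor_nonneg.2 (mul_nonneg hp.le (hx i).1)
      · have h1 : 2 ^ m * x i ≤ 2 ^ m := by
          have := mul_le_mul_of_nonneg_left (hx i).2 hp.le
          linarith
        have h2 : ((⌊2 ^ m * x i⌋ : ℤ) : ℝ) ≤ ((2 ^ m : ℤ) : ℝ) := by
          push_cast
          exact (Int.floor_le _).trans h1
        exact_mod_cast h2) (fun i hi => by
      rcases hxJ i hi with h | h
      · left; simp [h]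
      · right
        rw [h, mul_one]
        have : ((2:ℝ) ^ m) = (((2:ℤ) ^ m : ℤ) : ℝ) := by push_cast; rfl
        rw [this, Int.floor_intCast])
    refine ⟨z, fun i hi => h0 i (by simp [hi]), fun i hi => h1 i (by
      simp only [hi, mul_one]
      have : ((2:ℝ) ^ m) = (((2:ℤ) ^ m : ℤ) : ℝ) := by push_cast; rfl
      rw [this, Int.floor_intCast]), fun k => ?_⟩
    refine (h2 k).trans ?_
    have hB := her_nonneg w J B h k
    have : (1 - 1 / 2 ^ m : ℝ) ≤ 1 := by
      have : (0:ℝ) ≤ 1 / 2 ^ m := by positivity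
      linarith
    nlinarith
  choose z hz0 hz1 hz2 using hz
  -- some value of `z` occurs infinitely often
  obtain ⟨ζ, hζ⟩ : ∃ ζ : Fin n → Bool, ∃ᶠ m in atTop, z m = ζ := by
    by_contra hcon
    push Not at hcon
    have h2 := Filter.eventually_all.2 hcon
    obtain ⟨m, hm⟩ := h2.exists
    exact hm (z m) rfl
  obtain ⟨m0, hm0⟩ := hζ.exists
  refine ⟨ζ, fun i hi => by rw [← hm0]; exact hz0 m0 i hi,
    fun i hi => by rw [← hm0]; exact hz1 m0 i hi, fun k => ?_⟩
  have hlim : ∀ i, Tendsto (fun m : ℕ => (⌊2 ^ m * x i⌋ : ℝ) / 2 ^ m) atTop (𝓝 (x i)) := by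
    intro i
    have h1 : Tendsto (fun m : ℕ => x i - (1 / 2 : ℝ) ^ m) atTop (𝓝 (x i)) := by
      have := (tendsto_const_nhds (x := x i) (f := atTop (α := ℕ))).sub
        (tendsto_pow_atTop_nhds_zero_of_lt_one (by norm_num : (0:ℝ) ≤ 1 / 2) (by norm_num))
      simpa using this
    refine tendsto_of_tendsto_of_tendsto_of_le_of_le h1 tendsto_const_nhds ?_ ?_
    · intro m
      have hp : (0:ℝ) < 2 ^ m := by positivity
      have h2 := Int.sub_one_lt_floor (2 ^ m * x i)
      simp only
      rw [le_div_iff₀ hp, sub_mul, one_div, inv_pow, inv_mul_cancel₀ hp.ne']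
      linarith
    · intro m
      have hp : (0:ℝ) < 2 ^ m := by positivity
      have h2 := Int.floor_le (2 ^ m * x i)
      simp only
      rw [div_le_iff₀ hp]
      linarith
  have hT : Tendsto (fun m : ℕ => |∑ i, ((if ζ i then (1:ℝ) else 0) -
      (⌊2 ^ m * x i⌋ : ℝ) / 2 ^ m) * w i k|) atTop
      (𝓝 |∑ i, ((if ζ i then (1:ℝ) else 0) - x i) * w i k|) := by
    apply Tendsto.abs
    apply tendsto_finsetSum
    intro i _
    exact ((tendsto_const_nhds).sub (hlim i)).mul tendsto_const_nhds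
  refine le_of_tendsto_of_frequently hT (hζ.mono fun m hm => ?_)
  rw [← hm]
  exact hz2 m k

end Pool.Agent.H778.CR
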