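import Mathlib
import Pool.Agent.H778.CR.Lindisc

/-!
# The counting principle in its final form
-/

set_option autoImplicit false

open Filter Topology

namespace Pool.Agent.H778.CR

open Pool.Agent.H801R3.SB

variable {n : ℕ} {κ : Type*}

/-- signs as Booleans -/
def unitsEquiv : Bool ≃ ℤˣ where
  toFun b := if b then 1 else -1
  invFun u := decide (u = 1)
  left_inv b := by cases b <;> decide
  right_inv u := by
    rcases Int.units_eq_one_or u with h | h <;> rw [h] <;> decide

lemma sg_units (b : Bool) : sg b = (((unitsEquiv b : ℤˣ) : ℤ) : ℝ) := by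
  cases b <;> simp [sg, unitsEquiv]

open Classical in
lemma card_units (P : (Fin n → ℝ) → Prop) :
    Nat.card {ε : Fin n → ℤˣ // P (fun i => ((ε i : ℤ) : ℝ))} =
      (Finset.univ.filter (fun ε : Fin n → Bool => P (fun i => sg (ε i)))).card := by
  rw [← Fintype.card_subtype, ← Nat.card_eq_fintype_card]
  symm
  apply Nat.card_congr
  refine (Equiv.subtypeEquiv (Equiv.piCongrRight fun _ => unitsEquiv) ?_)
  intro ε
  have : (fun i => sg (ε i)) = fun i =>
      ((((Equiv.piCongrRight fun _ => unitsEquiv) ε i : ℤˣ) : ℤ) : ℝ) := by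
    funext i
    rw [sg_units]
    rfl
  rw [this]

/-- **Rounding implies counting.** Let `P` be a property of signings of `v_1, …, v_n` and let `r`
be the rank of these vectors. If every `x ∈ [-1,1]^n` with `∑ x_i v_i = 0` for which the `v_i` with
`|x_i| < 1` are linearly independent can be rounded to a signing with the property `P`,
then at least `2^n (r / (192 n))^{r/2}` signings have this property. -/
theorem counting (v : Fin n → κ → ℝ) (P : (Fin n → ℝ) → Prop)
    (h : ∀ x : Fin n → ℝ, (∀ i, |x i| ≤ 1) → ∑ i, x i • v i = 0 →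
      (∃ J : Finset (Fin n), J.card ≤ rk v ∧ LinearIndependent ℝ (fun j : J => v j) ∧
        ∀ i, i ∉ J → |x i| = 1) →
      ∃ ε : Fin n → ℝ, (∀ i, ε i = 1 ∨ ε i = -1) ∧ P ε ∧ ∀ i, |x i| = 1 → ε i = x i) :
    2 ^ n * ((rk v : ℝ) / (192 * n)) ^ ((rk v : ℝ) / 2) ≤
      (Nat.card {ε : Fin n → ℤˣ // P (fun i => ((ε i : ℤ) : ℝ))} : ℝ) := by
  classical
  rw [card_units P]
  set G := Finset.univ.filter (fun ε : Fin n → Bool => P (fun i => sg (ε i))) with hGdef
  have hG : Rounds v (rk v) G := by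
    intro x hx hx0 hJ
    obtain ⟨ε, hε, hP, hεx⟩ := h x hx hx0 hJ
    have hs : ∀ i, sg (decide (ε i = 1)) = ε i := by
      intro i
      rcases hε i with h1 | h1
      · simp [sg, h1]
      · have : ¬ ((-1:ℝ) = 1) := by norm_num
        simp [sg, h1, this]
    refine ⟨fun i => decide (ε i = 1), ?_, fun i hi => ?_⟩
    · simp only [hGdef, Finset.mem_filter, Finset.mem_univ, true_and]
      simp only [hs]
      exact hP
    · rw [hs i]; exact hεx i hi
  rcases Nat.eq_zero_or_pos n with hn | hn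
  · -- `n = 0`
    subst hn
    have hrk : rk v = 0 := by
      unfold rk
      rw [Set.range_eq_empty, Submodule.span_empty]
      simp
    obtain ⟨ε, hε, _⟩ := hG (fun _ => 0) (fun i => i.elim0) (by simp)
      ⟨∅, by simp, linearIndependent_empty_type, fun i => i.elim0⟩
    have h1 : 1 ≤ G.card := Finset.card_pos.2 ⟨ε, hε⟩
    have h2 : (1:ℝ) ≤ G.card := by exact_mod_cast h1
    rw [hrk]
    simpa using h2
  · have h1 := lower_rank v G hG hn
    set r := rk v with hr
    have hn' : (0:ℝ) < n := by exact_mod_cast hn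
    have h2 := sqrt_factorial r
    have hsn : 0 < √(n:ℝ) := Real.sqrt_pos.2 hn'
    -- `(r/(192 n))^{r/2} = √((r/3)^r) / (8 √n)^r`
    have h3 : ((r : ℝ) / (192 * n)) ^ ((r : ℝ) / 2) * (8 ^ r * √(n:ℝ) ^ r) ≤
        √(r.factorial : ℝ) := by
      have hb : (0:ℝ) ≤ ((r : ℝ) / (192 * n)) ^ ((r : ℝ) / 2) := by positivity
      have hsq : (((r : ℝ) / (192 * n)) ^ ((r : ℝ) / 2)) ^ 2 = ((r : ℝ) / (192 * n)) ^ r := by
        rw [← Real.rpow_natCast, ← Real.rpow_mul (by positivity), ← Real.rpow_natCast]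
        congr 1
        push_cast
        ring
      have h4 : (((r : ℝ) / (192 * n)) ^ ((r : ℝ) / 2) * (8 ^ r * √(n:ℝ) ^ r)) ^ 2 =
          ((r : ℝ) / 3) ^ r := by
        rw [mul_pow, hsq, mul_pow, ← pow_mul, ← pow_mul, mul_comm r 2, pow_mul, pow_mul,
          Real.sq_sqrt hn'.le, ← mul_pow, ← mul_pow]
        congr 1
        field_simp
        ring
      refine le_of_sq_le_sq ?_ (Real.sqrt_nonneg _)
      rw [h4]
      exact h2
    have h5 : (0:ℝ) < 8 ^ r * √(n:ℝ) ^ r := by positivity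
    have h6 : 2 ^ n * ((r : ℝ) / (192 * n)) ^ ((r : ℝ) / 2) * (8 ^ r * √(n:ℝ) ^ r) ≤
        (G.card : ℝ) * (8 ^ r * √(n:ℝ) ^ r) := by
      calc 2 ^ n * ((r : ℝ) / (192 * n)) ^ ((r : ℝ) / 2) * (8 ^ r * √(n:ℝ) ^ r)
          = 2 ^ n * (((r : ℝ) / (192 * n)) ^ ((r : ℝ) / 2) * (8 ^ r * √(n:ℝ) ^ r)) := by ring
        _ ≤ 2 ^ n * √(r.factorial : ℝ) := by gcongr
        _ ≤ _ := h1
    exact le_of_mul_le_mul_right h6 h5

/-- The transfer theorem for arbitrary vectors. -/
theorem transfer (v : Fin n → κ → ℝ) (B : ℝ)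
    (h : ∀ I : Finset (Fin n), LinearIndependent ℝ (fun i : I => v i) →
      ∃ ε : Fin n → ℝ, (∀ i, ε i = 1 ∨ ε i = -1) ∧ ∀ k, |∑ i ∈ I, ε i * v i k| ≤ B) :
    2 ^ n * ((rk v : ℝ) / (192 * n)) ^ ((rk v : ℝ) / 2) ≤
      (Nat.card {ε : Fin n → ℤˣ // ∀ k, |∑ i, ((ε i : ℤ) : ℝ) * v i k| ≤ 2 * B} : ℝ) := by
  classical
  refine counting v (fun e => ∀ k, |∑ i, e i * v i k| ≤ 2 * B) fun x hx hx0 ⟨J, _, hJ, hJx⟩ => ?_
  obtain ⟨z, hz0, hz1, hz⟩ := lindisc v J B (fun I hI => h I (by
    have h1 : (fun i : I => v i) = (fun j : J => v j) ∘ (fun i : I => (⟨i.1, hI i.2⟩ : J)) := rfl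
    rw [h1]
    refine hJ.comp _ fun a b hab => ?_
    apply Subtype.ext
    simpa using hab))
    (fun i => (1 + x i) / 2) (fun i => by
      have := abs_le.1 (hx i)
      constructor <;> linarith) (fun i hi => by
      rcases eq_or_eq_neg_of_abs_eq (hJx i hi) with h1 | h1
      · right; rw [h1]; norm_num
      · left; rw [h1]; norm_num)
  refine ⟨fun i => if z i then 1 else -1, fun i => ?_, fun k => ?_, fun i hi => ?_⟩
  · by_cases h1 : z i = true <;> simp [h1]
  · have h1 : ∑ i, (if z i then (1:ℝ) else -1) * v i k =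
        2 * ∑ i, ((if z i then (1:ℝ) else 0) - (1 + x i) / 2) * v i k + (∑ i, x i • v i) k := by
      rw [Finset.sum_apply, Finset.mul_sum, ← Finset.sum_add_distrib]
      refine Finset.sum_congr rfl fun i _ => ?_
      simp only [Pi.smul_apply, smul_eq_mul]
      by_cases h1 : z i = true
      · simp only [h1, if_true]; ring
      · simp only [h1]; norm_num; ring
    rw [h1, hx0, Pi.zero_apply, add_zero, abs_mul, abs_two]
    have := hz k
    linarith
  · rcases eq_or_eq_neg_of_abs_eq hi with h1 | h1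
    · have := hz1 i (by simp only [h1]; norm_num)
      simp only [this, if_true, h1]
    · have := hz0 i (by simp only [h1]; norm_num)
      simp only [this, h1]
      norm_num

end Pool.Agent.H778.CR
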