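import Mathlib
import Pool.Agent.H778.CR.Basic
import Pool.Graph.R_pool_sql_team_seeded_efc1946e.Results.MP_c81d26_co.PrescribedBounds

/-!
# Rounding a point with at most `r` fractional coordinates

The bounds for the coordinates are those of the library result `PrescribedBounds`.
-/

set_option autoImplicit false

namespace Pool.Agent.H778.CR

open Finset
open Pool.Agent.Results.MP_c81d26_co
open Pool.Agent.Results.MP_c81d26_co.PrescribedBounds (flat)

/-- The vectors `v_1, …, v_n` lie in the closed Euclidean unit ball of `ℝ^d`. -/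
def Ball {n d : ℕ} (v : Fin n → Fin d → ℝ) : Prop := ∀ i, ∑ k, v i k ^ 2 ≤ 1

/-- the numbers in part (2) -/
theorem num (D : ℝ) (hD : 0 < D) (L : ℝ) (hL1 : 1 ≤ L) :
    2 * L ≤ max ((2 * min (L ^ (1 / 4 : ℝ)) (1 + D * L ^ (1 / 2 : ℝ))) ^ 4)
        ((2 * min (L ^ (1 / 4 : ℝ)) (1 + D * L ^ (1 / 2 : ℝ)) / D) ^ 2) := by
  have hL0 : 0 ≤ L := by linarith
  have e4 : (L ^ (1 / 4 : ℝ)) ^ 4 = L := by
    rw [← Real.rpow_natCast, ← Real.rpow_mul hL0]
    norm_num
  have e2 : (L ^ (1 / 2 : ℝ)) ^ 2 = L := by
    rw [← Real.rpow_natCast, ← Real.rpow_mul hL0]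
    norm_num
  have p2 : 0 ≤ L ^ (1 / 2 : ℝ) := by positivity
  rcases le_total (L ^ (1 / 4 : ℝ)) (1 + D * L ^ (1 / 2 : ℝ)) with h | h
  · rw [min_eq_left h]
    refine le_trans ?_ (le_max_left _ _)
    rw [mul_pow, e4]
    linarith
  · rw [min_eq_right h]
    refine le_trans ?_ (le_max_right _ _)
    have h3 : 2 * L ^ (1 / 2 : ℝ) ≤ 2 * (1 + D * L ^ (1 / 2 : ℝ)) / D := by
      rw [le_div_iff₀ hD]
      nlinarith
    calc 2 * L ≤ (2 * L ^ (1 / 2 : ℝ)) ^ 2 := by rw [mul_pow, e2]; linarith
      _ ≤ _ := pow_le_pow_left₀ (by positivity) h3 2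

/-- the number `Λ_k` (here the coordinates are numbered from `0`) -/
noncomputable def Lam (r k : ℕ) : ℝ := 1 + Real.log (min r (k + 1) : ℕ)

theorem one_le_Lam (r k : ℕ) : 1 ≤ Lam r k := by
  have := Real.log_natCast_nonneg (min r (k + 1))
  unfold Lam
  linarith

theorem exp_Lam (r k : ℕ) (hr : 1 ≤ r) :
    Real.exp (-(2 * Lam r k)) = Real.exp (-2) * (1 / ((min r (k + 1) : ℕ) : ℝ) ^ 2) := by
  have h0 : (0:ℝ) < ((min r (k + 1) : ℕ) : ℝ) := by
    have : 0 < min r (k + 1) := by omega
    exact_mod_cast this
  unfold Lam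
  rw [show -(2 * (1 + Real.log ((min r (k + 1) : ℕ) : ℝ))) =
    -2 + -(Real.log ((min r (k + 1) : ℕ) : ℝ) + Real.log ((min r (k + 1) : ℕ) : ℝ)) by ring,
    Real.exp_add, Real.exp_neg (Real.log _ + _), Real.exp_add, Real.exp_log h0, sq, one_div]

/-- the values of the coordinates in part (2) -/
noncomputable def val (δ : ℝ) (r k : ℕ) : ℝ :=
  min (Lam r k ^ (1 / 4 : ℝ)) (1 + flat δ * Lam r k ^ (1 / 2 : ℝ))

theorem one_le_val (δ : ℝ) (h0 : 0 < δ) (h1 : δ ≤ 1) (r k : ℕ) : 1 ≤ val δ r k := by
  have hD := PrescribedBounds.flat_pos δ h0 h1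
  have hL := one_le_Lam r k
  refine le_min (Real.one_le_rpow hL (by norm_num)) ?_
  have : 0 ≤ Lam r k ^ (1 / 2 : ℝ) := Real.rpow_nonneg (by linarith) _
  nlinarith

/-- the rounding used in part (2) -/
theorem rounding (n d : ℕ) (v : Fin n → Fin d → ℝ) (δ : ℝ) (hv : Ball v) (h0 : 0 < δ)
    (h1 : δ ≤ 1) (hent : ∀ i k, |v i k| ≤ δ) (r : ℕ) (x : Fin n → ℝ) (hx : ∀ i, |x i| ≤ 1)
    (J : Finset (Fin n)) (hJ : J.card ≤ r) (hJx : ∀ i, i ∉ J → |x i| = 1) :
    ∃ ε : Fin n → ℤˣ, (∀ j, |x j| = 1 → ((ε j : ℤ) : ℝ) = x j) ∧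
      ∀ k : Fin d, |∑ j, (((ε j : ℤ) : ℝ) - x j) * v j k| ≤ 60000000 * val δ r k := by
  classical
  have hD := PrescribedBounds.flat_pos δ h0 h1
  set w : Fin n → ℕ → ℝ := fun j k => if h : k < d then v j ⟨k, h⟩ else 0 with hw
  have hwsum : ∀ (j : Fin n) (d' : ℕ), ∑ k ∈ range d', w j k ^ 2 ≤ 1 := by
    intro j d'
    calc ∑ k ∈ range d', w j k ^ 2 ≤ ∑ k ∈ range (max d d'), w j k ^ 2 :=
          Finset.sum_le_sum_of_subset_of_nonneg
            (Finset.range_mono (le_max_right _ _)) (fun _ _ _ => sq_nonneg _)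
      _ = ∑ k ∈ range d, w j k ^ 2 := by
          symm
          apply Finset.sum_subset (Finset.range_mono (le_max_left _ _))
          intro k _ hk
          have : ¬ k < d := by simpa using hk
          simp [hw, this]
      _ = ∑ k : Fin d, v j k ^ 2 := by
          rw [Finset.sum_range]
          refine Finset.sum_congr rfl fun k _ => ?_
          simp [hw]
      _ ≤ 1 := hv j
  have hwent : ∀ j k, |w j k| ≤ δ := by
    intro j k
    by_cases h : k < d
    · simp only [hw, h, dif_pos]
      exact hent j _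
    · simp only [hw, h, dif_neg, not_false_iff, abs_zero]
      exact h0.le
  obtain ⟨ε, hε1, hε2⟩ := PrescribedBounds.main n w δ x hwsum h0 h1 hwent hx
    (fun k => 2 * val δ r k) (fun k => by
      have := one_le_val δ h0 h1 r k
      linarith) (fun d' => by
      rcases Nat.eq_zero_or_pos r with hr | hr
      · -- no fractional coordinates
        have hJe : J = ∅ := by
          rw [hr] at hJ
          exact Finset.card_eq_zero.1 (by omega)
        have hrow : ∀ k, PrescribedBounds.rowSq w x k = 0 := by
          intro k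
          unfold PrescribedBounds.rowSq
          refine Finset.sum_eq_zero fun j _ => ?_
          rw [if_neg]
          rw [hJx j (by rw [hJe]; simp)]
          exact lt_irrefl 1
        simp only [hrow]
        simp
      · have hr' : (1:ℝ) ≤ r := by exact_mod_cast hr
        have hterm : ∀ k ∈ range d', min 1 (PrescribedBounds.rowSq w x k) *
            Real.exp (-max ((2 * val δ r k) ^ 4) ((2 * val δ r k / flat δ) ^ 2)) ≤
            Real.exp (-2) * (PrescribedBounds.rowSq w x k * (1 / (r:ℝ) ^ 2) +
              1 / (1 + (k:ℝ)) ^ 2) := by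
          intro k _
          have g1 := num (flat δ) hD (Lam r k) (one_le_Lam r k)
          have g2 : Real.exp (-max ((2 * val δ r k) ^ 4) ((2 * val δ r k / flat δ) ^ 2)) ≤
              Real.exp (-2) * (1 / ((min r (k + 1) : ℕ) : ℝ) ^ 2) := by
            rw [← exp_Lam r k hr]
            exact Real.exp_le_exp.2 (neg_le_neg g1)
          have hrow0 : 0 ≤ PrescribedBounds.rowSq w x k := by
            unfold PrescribedBounds.rowSq
            refine Finset.sum_nonneg fun j _ => ?_
            split_ifs
            · exact sq_nonneg _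
            · exact le_rfl
          have hm0 : 0 ≤ min 1 (PrescribedBounds.rowSq w x k) := le_min (by norm_num) hrow0
          have he := Real.exp_pos (-2:ℝ)
          refine (mul_le_mul_of_nonneg_left g2 hm0).trans ?_
          have hk0 : (0:ℝ) ≤ k := Nat.cast_nonneg k
          rcases le_total r (k + 1) with h | h
          · rw [min_eq_left h]
            have h3 : min 1 (PrescribedBounds.rowSq w x k) ≤ PrescribedBounds.rowSq w x k :=
              min_le_right _ _
            have h4 : 0 ≤ 1 / (1 + (k:ℝ)) ^ 2 := by positivity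
            have h5 : 0 ≤ 1 / (r:ℝ) ^ 2 := by positivity
            calc min 1 (PrescribedBounds.rowSq w x k) * (Real.exp (-2) * (1 / (r:ℝ) ^ 2))
                ≤ PrescribedBounds.rowSq w x k * (Real.exp (-2) * (1 / (r:ℝ) ^ 2)) :=
                  mul_le_mul_of_nonneg_right h3 (by positivity)
              _ ≤ _ := by
                have := mul_nonneg he.le h4
                nlinarith
          · rw [min_eq_right h]
            have h3 : min 1 (PrescribedBounds.rowSq w x k) ≤ 1 := min_le_left _ _
            have h5 : 0 ≤ PrescribedBounds.rowSq w x k * (1 / (r:ℝ) ^ 2) := by positivity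
            calc min 1 (PrescribedBounds.rowSq w x k) *
                  (Real.exp (-2) * (1 / ((k + 1 : ℕ) : ℝ) ^ 2))
                ≤ 1 * (Real.exp (-2) * (1 / ((k + 1 : ℕ) : ℝ) ^ 2)) :=
                  mul_le_mul_of_nonneg_right h3 (by positivity)
              _ = Real.exp (-2) * (1 / (1 + (k:ℝ)) ^ 2) := by
                push_cast
                rw [add_comm (k:ℝ) 1]
                ring
              _ ≤ _ := mul_le_mul_of_nonneg_left (by linarith) he.le
        refine (Finset.sum_le_sum hterm).trans ?_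
        rw [← Finset.mul_sum, Finset.sum_add_distrib, ← Finset.sum_mul]
        have hrs : ∑ k ∈ range d', PrescribedBounds.rowSq w x k ≤ r := by
          unfold PrescribedBounds.rowSq
          rw [Finset.sum_comm]
          have : ∀ j : Fin n, ∑ k ∈ range d', (if |x j| < 1 then w j k ^ 2 else 0) ≤
              if j ∈ J then (1:ℝ) else 0 := by
            intro j
            by_cases hj : |x j| < 1
            · have hjJ : j ∈ J := by
                by_contra h
                rw [hJx j h] at hj
                exact lt_irrefl 1 hj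
              simp only [hj, if_true, hjJ]
              exact hwsum j d'
            · simp only [hj, if_false, Finset.sum_const_zero]
              split_ifs <;> norm_num
          refine (Finset.sum_le_sum fun j _ => this j).trans ?_
          rw [← Finset.sum_filter, Finset.sum_const, nsmul_eq_mul, mul_one,
            Finset.filter_mem_eq_inter, Finset.univ_inter]
          exact_mod_cast hJ
        have h2 : ∑ k ∈ range d', (1 / (1 + (k : ℝ)) ^ 2) ≤ 2 := by
          rcases Nat.eq_zero_or_pos d' with h | h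
          · rw [h]; simp
          · obtain ⟨e, rfl⟩ : ∃ e, d' = e + 1 := ⟨d' - 1, by omega⟩
            refine (PrescribedBounds.sum_sq e).trans ?_
            have : 0 ≤ 1 / (1 + (e:ℝ)) := by positivity
            linarith
        have h3 : (∑ k ∈ range d', PrescribedBounds.rowSq w x k) * (1 / (r:ℝ) ^ 2) ≤ 1 := by
          have h4 : 0 ≤ 1 / (r:ℝ) ^ 2 := by positivity
          refine (mul_le_mul_of_nonneg_right hrs h4).trans ?_
          rw [mul_one_div, div_le_one (by positivity)]
          nlinarith
        have hexp : Real.exp (-2) ≤ 1 / 3 := by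
          rw [Real.exp_neg, inv_le_comm₀ (Real.exp_pos _) (by norm_num)]
          have := Real.add_one_le_exp (2 : ℝ)
          linarith
        have he := Real.exp_pos (-2:ℝ)
        nlinarith)
  refine ⟨ε, hε1, fun k => ?_⟩
  have h3 := hε2 k
  have h4 : PrescribedBounds.coord w x ε k = ∑ j, (((ε j : ℤ) : ℝ) - x j) * v j k := by
    unfold PrescribedBounds.coord
    refine Finset.sum_congr rfl fun j _ => ?_
    simp [hw]
  rw [h4] at h3
  refine h3.trans (le_of_eq ?_)
  ring

end Pool.Agent.H778.CR
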