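import Mathlib
import Pool.Agent.H778.CR.Basic
import Pool.Graph.R_seed8.H801R3.SB.Upper

/-!
# Sharpness: the standard basis vectors taken cyclically
-/

set_option autoImplicit false

open Filter Topology Matrix

namespace Pool.Agent.H778.CR

open Pool.Agent.H801R3.SB

variable {n d : ℕ}

/-- integers in an interval -/
lemma card_window (m : ℕ) (D : ℝ) (hD : 0 ≤ D) :
    (((Finset.range (m + 1)).filter (fun k : ℕ => |2 * (k:ℝ) - m| ≤ D)).card : ℝ) ≤ D + 1 := by
  classical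
  set S := (Finset.range (m + 1)).filter (fun k : ℕ => |2 * (k:ℝ) - m| ≤ D) with hS
  rcases S.eq_empty_or_nonempty with h | h
  · rw [h]; simp; linarith
  · set a := S.min' h with ha
    set b := S.max' h with hb
    have hsub : S ⊆ Finset.Icc a b := fun k hk =>
      Finset.mem_Icc.2 ⟨S.min'_le k hk, S.le_max' k hk⟩
    have h1 := Finset.card_le_card hsub
    rw [Nat.card_Icc] at h1
    have ha' := (Finset.mem_filter.1 (S.min'_mem h)).2
    have hb' := (Finset.mem_filter.1 (S.max'_mem h)).2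
    rw [← ha] at ha'
    rw [← hb] at hb'
    have hab : a ≤ b := S.min'_le b (S.max'_mem h)
    have h2 : (S.card : ℝ) ≤ ((b + 1 - a : ℕ) : ℝ) := by exact_mod_cast h1
    rw [Nat.cast_sub (by omega)] at h2
    push_cast at h2
    have h3 := (abs_le.1 ha').1
    have h4 := (abs_le.1 hb').2
    linarith

/-- small sums of `m` signs -/
lemma small_sums {ι : Type*} [Fintype ι] [DecidableEq ι] (D : ℝ) (hD : 0 ≤ D) :
    (((Finset.univ : Finset (ι → Bool)).filter
      (fun η => |((∑ i, zg (η i) : ℤ) : ℝ)| ≤ D)).card : ℝ) * √((Fintype.card ι : ℝ) + 1) ≤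
      (D + 1) * 2 ^ (Fintype.card ι) := by
  classical
  set m := Fintype.card ι with hm
  have h1 : (((Finset.univ : Finset (ι → Bool)).filter
      (fun η => |((∑ i, zg (η i) : ℤ) : ℝ)| ≤ D)).card : ℝ) =
      ∑ k ∈ Finset.range (m + 1), (m.choose k : ℝ) * (if |2 * (k:ℝ) - m| ≤ D then 1 else 0) := by
    have h2 : (((Finset.univ : Finset (ι → Bool)).filter
      (fun η => |((∑ i, zg (η i) : ℤ) : ℝ)| ≤ D)).card : ℝ) =
      ∑ s : Finset ι, (if |2 * (s.card : ℝ) - m| ≤ D then (1:ℝ) else 0) := by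
      rw [Finset.card_filter]
      push_cast
      refine Fintype.sum_equiv (boolEquiv ι) _ _ (fun η => ?_)
      have h3 := sum_zg η
      have h4 : ((∑ i, zg (η i) : ℤ) : ℝ) = 2 * ((boolEquiv ι η).card : ℝ) - m := by
        rw [h3]
        push_cast
        rfl
      push_cast at h4
      rw [h4]
    rw [h2, ← Finset.powerset_univ, Finset.sum_powerset_apply_card
      (fun k => if |2 * (k : ℝ) - m| ≤ D then (1:ℝ) else 0)]
    simp [nsmul_eq_mul, hm]
  rw [h1]
  have h2 : ∑ k ∈ Finset.range (m + 1), (m.choose k : ℝ) *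
      (if |2 * (k:ℝ) - m| ≤ D then 1 else 0) ≤ (m.choose (m / 2) : ℝ) * (D + 1) := by
    calc ∑ k ∈ Finset.range (m + 1), (m.choose k : ℝ) * (if |2 * (k:ℝ) - m| ≤ D then 1 else 0)
        ≤ ∑ k ∈ Finset.range (m + 1), (m.choose (m / 2) : ℝ) *
          (if |2 * (k:ℝ) - m| ≤ D then 1 else 0) := by
          refine Finset.sum_le_sum fun k _ => ?_
          apply mul_le_mul_of_nonneg_right
          · exact_mod_cast Nat.choose_le_middle k m
          · split_ifs <;> norm_num
      _ = (m.choose (m / 2) : ℝ) *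
          (((Finset.range (m + 1)).filter (fun k : ℕ => |2 * (k:ℝ) - m| ≤ D)).card : ℝ) := by
          rw [← Finset.mul_sum, Finset.card_filter]
          push_cast
          rfl
      _ ≤ _ := mul_le_mul_of_nonneg_left (card_window m D hD) (by positivity)
  have h3 := middle m
  calc (∑ k ∈ Finset.range (m + 1), (m.choose k : ℝ) *
      (if |2 * (k:ℝ) - m| ≤ D then 1 else 0)) * √((m : ℝ) + 1)
      ≤ ((m.choose (m / 2) : ℝ) * (D + 1)) * √((m : ℝ) + 1) := by gcongr
    _ = (D + 1) * ((m.choose (m / 2) : ℝ) * √((m : ℝ) + 1)) := by ring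
    _ ≤ (D + 1) * 2 ^ m := mul_le_mul_of_nonneg_left h3 (by linarith)

open Classical in
/-- The number of signings of value at most `D` of the cyclic configuration. -/
theorem sharp (hd : 0 < d) (D : ℝ) (hD : 0 ≤ D) :
    (((Finset.univ : Finset (Fin n → Bool)).filter
      (fun ε => ∀ k, |∑ i, sg (ε i) * cyc n hd i k| ≤ D)).card : ℝ) * √(n:ℝ) ^ d ≤
      2 ^ n * ((D + 1) * √(d:ℝ)) ^ d := by
  have h1 : (((Finset.univ : Finset (Fin n → Bool)).filter
      (fun ε => ∀ k, |∑ i, sg (ε i) * cyc n hd i k| ≤ D)).card : ℝ) ≤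
      ∏ j : Fin d, (((Finset.univ : Finset (Cls n hd j → Bool)).filter
      (fun η => |((∑ i, zg (η i) : ℤ) : ℝ)| ≤ D)).card : ℝ) := by
    have h2 : ((Finset.univ : Finset (Fin n → Bool)).filter
      (fun ε => ∀ k, |∑ i, sg (ε i) * cyc n hd i k| ≤ D)).card ≤
      (Fintype.piFinset (fun j : Fin d => (Finset.univ : Finset (Cls n hd j → Bool)).filter
      (fun η => |((∑ i, zg (η i) : ℤ) : ℝ)| ≤ D))).card := by
      refine Finset.card_le_card_of_injOn (clsEquiv n hd) ?_ ((clsEquiv n hd).injective.injOn)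
      intro ε hε
      simp only [Finset.coe_filter, Finset.mem_univ, true_and, Set.mem_ofPred_eq] at hε
      simp only [Finset.mem_coe, Fintype.mem_piFinset, Finset.mem_filter, Finset.mem_univ,
        true_and]
      intro j
      have h3 := hε j
      have h4 := sum_cyc hd ε j
      rw [Finset.sum_apply] at h4
      simp only [Pi.smul_apply, smul_eq_mul] at h4
      rw [h4] at h3
      exact h3
    rw [Fintype.card_piFinset] at h2
    exact_mod_cast h2
  have h2 : ∀ j : Fin d, (((Finset.univ : Finset (Cls n hd j → Bool)).filter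
      (fun η => |((∑ i, zg (η i) : ℤ) : ℝ)| ≤ D)).card : ℝ) * √(n:ℝ) ≤
      ((D + 1) * √(d:ℝ)) * 2 ^ (Fintype.card (Cls n hd j)) := by
    intro j
    have hc := small_sums (ι := Cls n hd j) D hD
    have hn : (n:ℝ) ≤ d * ((Fintype.card (Cls n hd j) : ℝ) + 1) := by
      have h3 := card_cls (n := n) hd j
      have h4 : n < d * (n/d + 1) := Nat.lt_mul_div_succ n hd
      have h5 : n ≤ d * (Fintype.card (Cls n hd j) + 1) :=
        h4.le.trans (Nat.mul_le_mul_left _ (by omega))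
      exact_mod_cast h5
    have hs : √(n:ℝ) ≤ √(d:ℝ) * √((Fintype.card (Cls n hd j) : ℝ) + 1) := by
      rw [← Real.sqrt_mul (by positivity)]
      exact Real.sqrt_le_sqrt hn
    have hsd : 0 ≤ √(d:ℝ) := Real.sqrt_nonneg _
    calc (((Finset.univ : Finset (Cls n hd j → Bool)).filter
      (fun η => |((∑ i, zg (η i) : ℤ) : ℝ)| ≤ D)).card : ℝ) * √(n:ℝ)
        ≤ (((Finset.univ : Finset (Cls n hd j → Bool)).filter
      (fun η => |((∑ i, zg (η i) : ℤ) : ℝ)| ≤ D)).card : ℝ) *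
          (√(d:ℝ) * √((Fintype.card (Cls n hd j) : ℝ) + 1)) := by gcongr
      _ = √(d:ℝ) * ((((Finset.univ : Finset (Cls n hd j → Bool)).filter
      (fun η => |((∑ i, zg (η i) : ℤ) : ℝ)| ≤ D)).card : ℝ) *
          √((Fintype.card (Cls n hd j) : ℝ) + 1)) := by ring
      _ ≤ √(d:ℝ) * ((D + 1) * 2 ^ (Fintype.card (Cls n hd j))) :=
          mul_le_mul_of_nonneg_left hc hsd
      _ = _ := by ring
  calc (((Finset.univ : Finset (Fin n → Bool)).filter
      (fun ε => ∀ k, |∑ i, sg (ε i) * cyc n hd i k| ≤ D)).card : ℝ) * √(n:ℝ) ^ d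
      ≤ (∏ j : Fin d, (((Finset.univ : Finset (Cls n hd j → Bool)).filter
      (fun η => |((∑ i, zg (η i) : ℤ) : ℝ)| ≤ D)).card : ℝ)) * √(n:ℝ) ^ d := by gcongr
    _ = ∏ j : Fin d, ((((Finset.univ : Finset (Cls n hd j → Bool)).filter
      (fun η => |((∑ i, zg (η i) : ℤ) : ℝ)| ≤ D)).card : ℝ) * √(n:ℝ)) := by
      rw [Finset.prod_mul_distrib, Finset.prod_const, Finset.card_univ, Fintype.card_fin]
    _ ≤ ∏ j : Fin d, (((D + 1) * √(d:ℝ)) * 2 ^ (Fintype.card (Cls n hd j))) := by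
      apply Finset.prod_le_prod
      · intro j _; positivity
      · intro j _; exact h2 j
    _ = 2 ^ n * ((D + 1) * √(d:ℝ)) ^ d := by
      rw [Finset.prod_mul_distrib, Finset.prod_const, Finset.card_univ, Fintype.card_fin,
        Finset.prod_pow_eq_pow_sum, card_cls_sum]
      ring

/-- the rank of the cyclic configuration -/
theorem rk_cyc (hd : 0 < d) (hn : d ≤ n) : rk (cyc n hd) = d := by
  unfold rk
  have h1 : Submodule.span ℝ (Set.range (cyc n hd)) = ⊤ := by
    rw [eq_top_iff, ← (Pi.basisFun ℝ (Fin d)).span_eq]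
    apply Submodule.span_mono
    rintro _ ⟨k, rfl⟩
    refine ⟨⟨k.val, lt_of_lt_of_le k.isLt hn⟩, ?_⟩
    simp only [cyc, Pi.basisFun_apply]
    congr 1
    ext
    exact Nat.mod_eq_of_lt k.isLt
  rw [h1, finrank_top, Module.finrank_fin_fun]

lemma rpow_half (a : ℝ) (ha : 0 ≤ a) (d : ℕ) : a ^ ((d : ℝ) / 2) = √a ^ d := by
  rw [Real.sqrt_eq_rpow, ← Real.rpow_natCast, ← Real.rpow_mul ha]
  congr 1
  ring

/-- **Sharpness.** -/
theorem sharp_count (hd : 0 < d) (hn : d ≤ n) (D : ℝ) (hD : 1 ≤ D) :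
    (Nat.card {ε : Fin n → ℤˣ // ∀ k, |∑ i, ((ε i : ℤ) : ℝ) * cyc n hd i k| ≤ D} : ℝ) ≤
      2 ^ n * (4 * D ^ 2 * d / n) ^ ((d : ℝ) / 2) := by
  classical
  rw [card_units (fun e => ∀ k, |∑ i, e i * cyc n hd i k| ≤ D)]
  have h1 := sharp (n := n) hd D (by linarith)
  have hn' : (0:ℝ) < n := by
    have : 0 < n := lt_of_lt_of_le hd hn
    exact_mod_cast this
  have hsn : 0 < √(n:ℝ) := Real.sqrt_pos.2 hn'
  have h2 : ((D + 1) * √(d:ℝ)) ^ d ≤ (4 * D ^ 2 * d / n) ^ ((d : ℝ) / 2) * √(n:ℝ) ^ d := by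
    rw [rpow_half _ (by positivity), ← mul_pow, ← Real.sqrt_mul (by positivity)]
    apply pow_le_pow_left₀ (by positivity)
    have e2 : 4 * D ^ 2 * d / n * n = (2 * D) ^ 2 * d := by
      field_simp
      ring
    rw [e2, Real.sqrt_mul (by positivity), Real.sqrt_sq (by linarith)]
    apply mul_le_mul_of_nonneg_right _ (Real.sqrt_nonneg _)
    linarith
  have h3 : (0:ℝ) < √(n:ℝ) ^ d := by positivity
  simp only
  refine le_of_mul_le_mul_right (h1.trans ?_) h3
  calc 2 ^ n * ((D + 1) * √(d:ℝ)) ^ d ≤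
      2 ^ n * ((4 * D ^ 2 * d / n) ^ ((d : ℝ) / 2) * √(n:ℝ) ^ d) :=
        mul_le_mul_of_nonneg_left h2 (by positivity)
    _ = _ := by ring

end Pool.Agent.H778.CR
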