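import Mathlib
import Pool.Agent.H778.CR.Sharp

/-!
# Signings with small class sums in the sense of `ℓ¹`
-/

set_option autoImplicit false

open Filter Topology Matrix

namespace Pool.Agent.H778.CR

open Pool.Agent.H801R3.SB

variable {n d : ℕ}

/-- exponential weight -/
noncomputable def ew (D : ℝ) (s : ℤ) : ℝ := Real.exp (-(|(s : ℝ)| / D))

lemma ew_pos (D : ℝ) (s : ℤ) : 0 < ew D s := Real.exp_pos _

/-- the geometric sum -/
lemma geo (θ : ℝ) (h0 : 0 < θ) (h1 : θ < 1) (m : ℕ) :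
    ∑ k ∈ Finset.range (m + 1), θ ^ (2 * (k : ℤ) - m).natAbs ≤
      2 / (1 - θ ^ 2) - (2 * θ ^ 2 / (1 - θ ^ 2)) * θ ^ m := by
  have hθ2 : θ ^ 2 < 1 := by nlinarith
  have hpos : 0 < 1 - θ ^ 2 := by linarith
  set B := 2 * θ ^ 2 / (1 - θ ^ 2) with hB
  have hA : 2 / (1 - θ ^ 2) = B + 2 := by
    rw [hB]; field_simp; ring
  have hB0 : 0 ≤ B := by positivity
  rw [hA]
  induction m using Nat.twoStepInduction with
  | zero => simp
  | one =>
    simp [Finset.sum_range_succ]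
    have h2 : 0 ≤ B * (1 - θ) := mul_nonneg hB0 (by linarith)
    nlinarith
  | more m ih _ =>
    rw [Finset.sum_range_succ, Finset.sum_range_succ']
    have e1 : ∀ k : ℕ, (2 * ((k + 1 : ℕ) : ℤ) - ((m + 2 : ℕ) : ℤ)).natAbs =
        (2 * (k : ℤ) - m).natAbs := by
      intro k
      congr 1
      push_cast
      ring
    have e2 : (2 * ((m + 1 + 1 : ℕ) : ℤ) - ((m + 2 : ℕ) : ℤ)).natAbs = m + 2 := by omega
    have e3 : (2 * ((0 : ℕ) : ℤ) - ((m + 2 : ℕ) : ℤ)).natAbs = m + 2 := by omega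
    rw [e2, e3]
    simp only [e1]
    have h3 : B * θ ^ m = B * θ ^ (m + 2) + 2 * θ ^ (m + 2) := by
      have h4 : B * (1 - θ ^ 2) = 2 * θ ^ 2 := by rw [hB]; field_simp
      have h5 : θ ^ (m + 2) = θ ^ m * θ ^ 2 := pow_add _ _ _
      rw [h5]
      calc B * θ ^ m = θ ^ m * (B * (1 - θ ^ 2)) + B * (θ ^ m * θ ^ 2) := by ring
        _ = _ := by rw [h4]; ring
    linarith

lemma ew_eq (D : ℝ) (s : ℤ) : ew D s = (Real.exp (-(1 / D))) ^ s.natAbs := by
  unfold ew
  rw [← Real.exp_nat_mul]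
  congr 1
  have : (s.natAbs : ℝ) = |(s : ℝ)| := by
    rw [Nat.cast_natAbs, Int.cast_abs]
  rw [this]
  ring

lemma geo_ew (D : ℝ) (hD : 1 ≤ D) (m : ℕ) :
    ∑ k ∈ Finset.range (m + 1), ew D (2 * (k : ℤ) - m) ≤ 3 * D := by
  set θ := Real.exp (-(1 / D)) with hθ
  have hD0 : 0 < D := by linarith
  have h0 : 0 < θ := Real.exp_pos _
  have h1 : θ < 1 := by
    rw [hθ, Real.exp_lt_one_iff]
    have : 0 < 1 / D := by positivity
    linarith
  have h2 := geo θ h0 h1 m
  have hθ2 : θ ^ 2 < 1 := by nlinarith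
  have hpos : 0 < 1 - θ ^ 2 := by linarith
  have h3 : 0 ≤ (2 * θ ^ 2 / (1 - θ ^ 2)) * θ ^ m := by positivity
  simp_rw [ew_eq]
  refine (h2.trans (by linarith : _ ≤ 2 / (1 - θ ^ 2))).trans ?_
  -- `1 - θ² ≥ 2/(D+2)`
  have h4 : θ ^ 2 ≤ D / (D + 2) := by
    have h5 : θ ^ 2 = Real.exp (-(2 / D)) := by
      rw [hθ, ← Real.exp_nat_mul]
      congr 1
      push_cast
      ring
    rw [h5, Real.exp_neg, inv_le_comm₀ (Real.exp_pos _) (by positivity), inv_div]
    have h6 := Real.add_one_le_exp (2 / D)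
    refine le_trans (le_of_eq ?_) h6
    field_simp
    ring
  have h7 : 2 / (D + 2) ≤ 1 - θ ^ 2 := by
    have : 1 - D / (D + 2) = 2 / (D + 2) := by field_simp; ring
    linarith
  rw [div_le_iff₀ hpos]
  have h8 : 3 * D * (2 / (D + 2)) ≤ 3 * D * (1 - θ ^ 2) :=
    mul_le_mul_of_nonneg_left h7 (by positivity)
  have h9 : 2 ≤ 3 * D * (2 / (D + 2)) := by
    rw [mul_div_assoc', le_div_iff₀ (by positivity)]
    linarith
  linarith

/-- the weight of a class -/
lemma class_ew {ι : Type*} [Fintype ι] [DecidableEq ι] (D : ℝ) (hD : 1 ≤ D) :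
    (∑ η : ι → Bool, ew D (∑ i, zg (η i))) * √((Fintype.card ι : ℝ) + 1) ≤
      3 * D * 2 ^ (Fintype.card ι) := by
  classical
  set m := Fintype.card ι with hm
  have h1 : ∑ η : ι → Bool, ew D (∑ i, zg (η i)) =
      ∑ k ∈ Finset.range (m + 1), (m.choose k : ℝ) * ew D (2 * (k : ℤ) - m) := by
    have h2 : ∑ η : ι → Bool, ew D (∑ i, zg (η i)) =
        ∑ s : Finset ι, ew D (2 * (s.card : ℤ) - m) := by
      refine Fintype.sum_equiv (boolEquiv ι) _ _ (fun η => ?_)
      rw [sum_zg]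
    rw [h2, ← Finset.powerset_univ, Finset.sum_powerset_apply_card
      (fun k => ew D (2 * (k : ℤ) - m))]
    simp [nsmul_eq_mul, hm]
  rw [h1]
  have h2 : ∑ k ∈ Finset.range (m + 1), (m.choose k : ℝ) * ew D (2 * (k : ℤ) - m) ≤
      (m.choose (m / 2) : ℝ) * (3 * D) := by
    calc ∑ k ∈ Finset.range (m + 1), (m.choose k : ℝ) * ew D (2 * (k : ℤ) - m)
        ≤ ∑ k ∈ Finset.range (m + 1), (m.choose (m / 2) : ℝ) * ew D (2 * (k : ℤ) - m) := by
          refine Finset.sum_le_sum fun k _ => ?_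
          apply mul_le_mul_of_nonneg_right _ (ew_pos _ _).le
          exact_mod_cast Nat.choose_le_middle k m
      _ = (m.choose (m / 2) : ℝ) * ∑ k ∈ Finset.range (m + 1), ew D (2 * (k : ℤ) - m) := by
          rw [Finset.mul_sum]
      _ ≤ _ := mul_le_mul_of_nonneg_left (geo_ew D hD m) (by positivity)
  have h3 := middle m
  calc (∑ k ∈ Finset.range (m + 1), (m.choose k : ℝ) * ew D (2 * (k : ℤ) - m)) * √((m : ℝ) + 1)
      ≤ ((m.choose (m / 2) : ℝ) * (3 * D)) * √((m : ℝ) + 1) := by gcongr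
    _ = (3 * D) * ((m.choose (m / 2) : ℝ) * √((m : ℝ) + 1)) := by ring
    _ ≤ (3 * D) * 2 ^ m := mul_le_mul_of_nonneg_left h3 (by linarith)

/-- the sum over a class -/
def cs (hd : 0 < d) (ε : Fin n → Bool) (j : Fin d) : ℤ := ∑ i : Cls n hd j, zg (ε i.1)

open Classical in
/-- The number of signings with small class sums. -/
theorem l1_count (hd : 0 < d) (D : ℝ) (hD : 1 ≤ D) (K : ℝ) :
    (((Finset.univ : Finset (Fin n → Bool)).filter
      (fun ε => ∑ j, |(cs hd ε j : ℝ)| ≤ K * D * d)).card : ℝ) * √(n:ℝ) ^ d ≤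
      2 ^ n * (Real.exp K * (3 * D) * √(d:ℝ)) ^ d := by
  have hD0 : 0 < D := by linarith
  have h1 : (((Finset.univ : Finset (Fin n → Bool)).filter
      (fun ε => ∑ j, |(cs hd ε j : ℝ)| ≤ K * D * d)).card : ℝ) ≤
      Real.exp K ^ d * ∏ j : Fin d, ∑ η : Cls n hd j → Bool, ew D (∑ i, zg (η i)) := by
    have h2 : ∏ j : Fin d, ∑ η : Cls n hd j → Bool, ew D (∑ i, zg (η i)) =
        ∑ ε : Fin n → Bool, ∏ j, ew D (cs hd ε j) := by
      rw [Finset.prod_univ_sum, Fintype.piFinset_univ]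
      symm
      refine Fintype.sum_equiv (clsEquiv n hd) _ _ (fun ε => ?_)
      rfl
    rw [h2, Finset.mul_sum]
    calc (((Finset.univ : Finset (Fin n → Bool)).filter
      (fun ε => ∑ j, |(cs hd ε j : ℝ)| ≤ K * D * d)).card : ℝ)
        = ∑ ε ∈ (Finset.univ : Finset (Fin n → Bool)).filter
          (fun ε => ∑ j, |(cs hd ε j : ℝ)| ≤ K * D * d), (1:ℝ) := by
          rw [Finset.sum_const, nsmul_eq_mul, mul_one]
      _ ≤ ∑ ε ∈ (Finset.univ : Finset (Fin n → Bool)).filter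
          (fun ε => ∑ j, |(cs hd ε j : ℝ)| ≤ K * D * d),
            Real.exp K ^ d * ∏ j, ew D (cs hd ε j) := by
          refine Finset.sum_le_sum fun ε hε => ?_
          have h3 := (Finset.mem_filter.1 hε).2
          have h4 : ∏ j, ew D (cs hd ε j) = Real.exp (-((∑ j, |(cs hd ε j : ℝ)|) / D)) := by
            unfold ew
            rw [← Real.exp_sum, Finset.sum_neg_distrib, Finset.sum_div]
          rw [h4, ← Real.exp_nat_mul, ← Real.exp_add]
          rw [← Real.exp_zero]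
          apply Real.exp_le_exp.2
          have h5 : (∑ j, |(cs hd ε j : ℝ)|) / D ≤ K * d := by
            rw [div_le_iff₀ hD0]
            linarith
          linarith
      _ ≤ _ := by
          apply Finset.sum_le_sum_of_subset_of_nonneg (Finset.subset_univ _)
          intro ε _ _
          exact mul_nonneg (by positivity) (Finset.prod_nonneg fun j _ => (ew_pos _ _).le)
  have h2 : ∀ j : Fin d, (∑ η : Cls n hd j → Bool, ew D (∑ i, zg (η i))) * √(n:ℝ) ≤
      (3 * D * √(d:ℝ)) * 2 ^ (Fintype.card (Cls n hd j)) := by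
    intro j
    have hc := class_ew (ι := Cls n hd j) D hD
    have hn : (n:ℝ) ≤ d * ((Fintype.card (Cls n hd j) : ℝ) + 1) := by
      have h3 := card_cls (n := n) hd j
      have h4 : n < d * (n/d + 1) := Nat.lt_mul_div_succ n hd
      have h5 : n ≤ d * (Fintype.card (Cls n hd j) + 1) :=
        h4.le.trans (Nat.mul_le_mul_left _ (by omega))
      exact_mod_cast h5
    have hs : √(n:ℝ) ≤ √(d:ℝ) * √((Fintype.card (Cls n hd j) : ℝ) + 1) := by
      rw [← Real.sqrt_mul (by positivity)]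
      exact Real.sqrt_le_sqrt hn
    have hsd : 0 ≤ √(d:ℝ) := Real.sqrt_nonneg _
    have hw : 0 ≤ ∑ η : Cls n hd j → Bool, ew D (∑ i, zg (η i)) :=
      Finset.sum_nonneg fun _ _ => (ew_pos _ _).le
    calc (∑ η : Cls n hd j → Bool, ew D (∑ i, zg (η i))) * √(n:ℝ)
        ≤ (∑ η : Cls n hd j → Bool, ew D (∑ i, zg (η i))) *
          (√(d:ℝ) * √((Fintype.card (Cls n hd j) : ℝ) + 1)) := by gcongr
      _ = √(d:ℝ) * ((∑ η : Cls n hd j → Bool, ew D (∑ i, zg (η i))) *
          √((Fintype.card (Cls n hd j) : ℝ) + 1)) := by ring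
      _ ≤ √(d:ℝ) * (3 * D * 2 ^ (Fintype.card (Cls n hd j))) :=
          mul_le_mul_of_nonneg_left hc hsd
      _ = _ := by ring
  have hprod : ∀ j : Fin d, 0 ≤ ∑ η : Cls n hd j → Bool, ew D (∑ i, zg (η i)) :=
    fun j => Finset.sum_nonneg fun _ _ => (ew_pos _ _).le
  calc (((Finset.univ : Finset (Fin n → Bool)).filter
      (fun ε => ∑ j, |(cs hd ε j : ℝ)| ≤ K * D * d)).card : ℝ) * √(n:ℝ) ^ d
      ≤ (Real.exp K ^ d * ∏ j : Fin d, ∑ η : Cls n hd j → Bool, ew D (∑ i, zg (η i))) *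
        √(n:ℝ) ^ d := by gcongr
    _ = Real.exp K ^ d * ∏ j : Fin d, ((∑ η : Cls n hd j → Bool, ew D (∑ i, zg (η i))) *
        √(n:ℝ)) := by
      rw [Finset.prod_mul_distrib, Finset.prod_const, Finset.card_univ, Fintype.card_fin]
      ring
    _ ≤ Real.exp K ^ d * ∏ j : Fin d, ((3 * D * √(d:ℝ)) * 2 ^ (Fintype.card (Cls n hd j))) := by
      apply mul_le_mul_of_nonneg_left _ (by positivity)
      apply Finset.prod_le_prod
      · intro j _; exact mul_nonneg (hprod j) (Real.sqrt_nonneg _)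
      · intro j _; exact h2 j
    _ = 2 ^ n * (Real.exp K * (3 * D) * √(d:ℝ)) ^ d := by
      rw [Finset.prod_mul_distrib, Finset.prod_const, Finset.card_univ, Fintype.card_fin,
        Finset.prod_pow_eq_pow_sum, card_cls_sum, mul_assoc (Real.exp K), mul_pow (Real.exp K)]
      ring

end Pool.Agent.H778.CR
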