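import Mathlib
import Pool.Agent.H778.CR.Weights

/-!
# Set systems from Walsh functions, with large singular values
-/

set_option autoImplicit false

open Filter Topology Matrix

namespace Pool.Agent.H778.CR

open Pool.Agent.H801R3.SB

variable {k : ℕ}

/-- Walsh functions -/
def wal (b a : Finset (Fin k)) : ℤ := ∏ i ∈ a, (if i ∈ b then -1 else 1)

lemma wal_cases (b a : Finset (Fin k)) : wal b a = 1 ∨ wal b a = -1 := by
  classical
  unfold wal
  induction a using Finset.induction_on with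
  | empty => left; simp
  | insert x a hx ih =>
    rw [Finset.prod_insert hx]
    split_ifs
    · rcases ih with h | h <;> rw [h] <;> simp
    · rcases ih with h | h <;> rw [h] <;> simp

lemma wal_orth (b b' : Finset (Fin k)) :
    ∑ a, wal b a * wal b' a = if b = b' then 2 ^ k else 0 := by
  classical
  have h1 : ∑ a, wal b a * wal b' a =
      ∏ i : Fin k, (1 + (if i ∈ b then -1 else 1) * (if i ∈ b' then (-1:ℤ) else 1)) := by
    rw [Finset.prod_one_add, ← Finset.powerset_univ]
    refine Finset.sum_congr rfl fun a _ => ?_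
    unfold wal
    rw [← Finset.prod_mul_distrib]
  rw [h1]
  split_ifs with h
  · subst h
    have : ∀ i : Fin k, (1 + (if i ∈ b then -1 else 1) * (if i ∈ b then (-1:ℤ) else 1)) = 2 := by
      intro i
      split_ifs <;> norm_num
    simp only [this, Finset.prod_const, Finset.card_univ, Fintype.card_fin]
  · have h2 : ∃ i, ¬ (i ∈ b ↔ i ∈ b') := by
      by_contra hcon
      push Not at hcon
      exact h (Finset.ext hcon)
    obtain ⟨i, hi⟩ := h2
    apply Finset.prod_eq_zero (Finset.mem_univ i)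
    by_cases h3 : i ∈ b <;> by_cases h4 : i ∈ b' <;> simp [h3, h4] at hi ⊢

lemma wal_empty (a : Finset (Fin k)) : wal ∅ a = 1 := by simp [wal]

lemma wal_sum (b : Finset (Fin k)) (hb : b ≠ ∅) : ∑ a, wal b a = 0 := by
  have h := wal_orth b ∅
  rw [if_neg hb] at h
  simpa [wal_empty] using h

/-- the entries `0, 1` -/
def ent (b a : Finset (Fin k)) : ℝ := if wal b a = -1 then 1 else 0

lemma ent_eq (b a : Finset (Fin k)) : ent b a = (1 - (wal b a : ℝ)) / 2 := by
  unfold ent
  rcases wal_cases b a with h | h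
  · rw [h]; norm_num
  · rw [h]; norm_num

lemma gram (b b' : Finset (Fin k)) (hb : b ≠ ∅) (hb' : b' ≠ ∅) :
    ∑ a, ent b a * ent b' a = (2 ^ k / 4) * (1 + if b = b' then 1 else 0) := by
  have h1 : ∑ a, ent b a * ent b' a = (1 / 4) * ((∑ a : Finset (Fin k), (1:ℝ)) -
      ((∑ a, wal b a : ℤ) : ℝ) - ((∑ a, wal b' a : ℤ) : ℝ) +
        ((∑ a, wal b a * wal b' a : ℤ) : ℝ)) := by
    push_cast
    rw [← Finset.sum_sub_distrib, ← Finset.sum_sub_distrib, ← Finset.sum_add_distrib,
      Finset.mul_sum]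
    refine Finset.sum_congr rfl fun a _ => ?_
    rw [ent_eq, ent_eq]
    ring
  rw [h1, wal_sum b hb, wal_sum b' hb', wal_orth]
  simp only [Finset.sum_const, Finset.card_univ, Fintype.card_finset, Fintype.card_fin,
    nsmul_eq_mul, mul_one]
  push_cast
  split_ifs <;> ring

lemma col_card (b : Finset (Fin (k + 1))) (hb : b ≠ ∅) :
    (Finset.univ.filter (fun a => wal b a = -1)).card = 2 ^ k := by
  classical
  have h1 : ((Finset.univ.filter (fun a => wal b a = -1)).card : ℝ) = ∑ a, ent b a * ent b a := by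
    rw [Finset.card_filter]
    push_cast
    refine Finset.sum_congr rfl fun a _ => ?_
    unfold ent
    split_ifs <;> simp
  rw [gram b b hb hb] at h1
  simp only [if_true] at h1
  have h2 : ((Finset.univ.filter (fun a => wal b a = -1)).card : ℝ) = ((2 ^ k : ℕ) : ℝ) := by
    rw [h1]
    push_cast
    rw [pow_succ]
    ring
  exact_mod_cast h2

/-- an enumeration of the nonempty sets -/
noncomputable def enum (k : ℕ) : Fin (2 ^ k - 1) ≃ {b : Finset (Fin k) // b ≠ ∅} :=
  (Fintype.equivFinOfCardEq (by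
    rw [Fintype.card_subtype_compl]
    simp [Fintype.card_finset])).symm

section System

variable (k) (hk : 1 < 2 ^ k)

/-- the Walsh function of a column -/
noncomputable def bb (q : ℕ) : Finset (Fin k) :=
  (enum k ⟨q % (2 ^ k - 1), Nat.mod_lt _ (Nat.sub_pos_of_lt hk)⟩).1

lemma bb_ne (q : ℕ) : bb k hk q ≠ ∅ :=
  (enum k ⟨q % (2 ^ k - 1), Nat.mod_lt _ (Nat.sub_pos_of_lt hk)⟩).2

lemma bb_inj (q q' : ℕ) (h1 : q / (2 ^ k - 1) = q' / (2 ^ k - 1))
    (h2 : bb k hk q = bb k hk q') : q = q' := by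
  have h3 := (enum k).injective (Subtype.ext h2)
  have h4 : q % (2 ^ k - 1) = q' % (2 ^ k - 1) := by simpa using h3
  rw [← Nat.div_add_mod q (2 ^ k - 1), ← Nat.div_add_mod q' (2 ^ k - 1), h1, h4]

/-- the matrix -/
noncomputable def AW (L : ℕ) (p : Fin L × Finset (Fin k)) (q : ℕ) : ℝ :=
  if q / (2 ^ k - 1) = p.1.val then ent (bb k hk q) p.2 else 0

lemma AW_zero_one (L : ℕ) (p : Fin L × Finset (Fin k)) (q : ℕ) :
    AW k hk L p q = 0 ∨ AW k hk L p q = 1 := by
  unfold AW ent
  split_ifs <;> simp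

lemma gramA (L r : ℕ) (hL : r ≤ L * (2 ^ k - 1)) (q q' : Fin r) :
    ∑ p, AW k hk L p q * AW k hk L p q' =
      (2 ^ k / 4) * ((if q.val / (2 ^ k - 1) = q'.val / (2 ^ k - 1) then 1 else 0) +
        if q = q' then 1 else 0) := by
  have hq : q.val / (2 ^ k - 1) < L := by
    rw [Nat.div_lt_iff_lt_mul (Nat.sub_pos_of_lt hk)]
    exact lt_of_lt_of_le q.isLt hL
  rw [Fintype.sum_prod_type]
  simp only [AW]
  rw [Finset.sum_eq_single ⟨q.val / (2 ^ k - 1), hq⟩]
  · simp only [if_true]
    by_cases h : q.val / (2 ^ k - 1) = q'.val / (2 ^ k - 1)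
    · simp only [h, if_true]
      rw [gram _ _ (bb_ne k hk _) (bb_ne k hk _)]
      congr 2
      by_cases h2 : q = q'
      · subst h2; simp
      · have h3 : bb k hk q ≠ bb k hk q' := fun h4 => h2 (Fin.ext (bb_inj k hk _ _ h h4))
        simp [h2, h3]
    · have h' : ¬ q'.val / (2 ^ k - 1) = q.val / (2 ^ k - 1) := fun h2 => h h2.symm
      have h2 : q ≠ q' := fun h3 => h (by rw [h3])
      simp only [h, h', h2, if_false, mul_zero, Finset.sum_const_zero, add_zero]
  · intro l _ hl
    have : ¬ q.val / (2 ^ k - 1) = l.val := fun h => hl (Fin.ext h.symm)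
    simp [this]
  · intro h
    exact absurd (Finset.mem_univ _) h

/-- the smallest singular value -/
theorem sing (L r : ℕ) (hL : r ≤ L * (2 ^ k - 1)) (s : Fin r → ℝ) :
    (2 ^ k / 4) * ∑ q, s q ^ 2 ≤ ∑ p, (∑ q : Fin r, AW k hk L p q * s q) ^ 2 := by
  classical
  have h1 : ∑ p, (∑ q : Fin r, AW k hk L p q * s q) ^ 2 =
      ∑ q : Fin r, ∑ q' : Fin r, s q * s q' * ∑ p, AW k hk L p q * AW k hk L p q' := by
    simp_rw [sq, Finset.sum_mul_sum, Finset.mul_sum]
    rw [Finset.sum_comm]
    refine Finset.sum_congr rfl fun q _ => ?_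
    rw [Finset.sum_comm]
    refine Finset.sum_congr rfl fun q' _ => ?_
    refine Finset.sum_congr rfl fun p _ => ?_
    ring
  rw [h1]
  simp_rw [gramA k hk L r hL]
  have h2 : ∑ q : Fin r, ∑ q' : Fin r, s q * s q' * ((2 ^ k / 4) *
      ((if q.val / (2 ^ k - 1) = q'.val / (2 ^ k - 1) then 1 else 0) +
        if q = q' then 1 else 0)) =
      (2 ^ k / 4) * (∑ q : Fin r, ∑ q' : Fin r,
        (if q.val / (2 ^ k - 1) = q'.val / (2 ^ k - 1) then s q * s q' else 0)) +
      (2 ^ k / 4) * ∑ q : Fin r, s q ^ 2 := by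
    rw [← mul_add, ← Finset.sum_add_distrib, Finset.mul_sum]
    refine Finset.sum_congr rfl fun q _ => ?_
    have h3 : s q ^ 2 = ∑ q' : Fin r, (if q = q' then s q * s q' else 0) := by
      rw [Finset.sum_ite_eq]
      simp [sq]
    rw [h3, ← Finset.sum_add_distrib, Finset.mul_sum]
    refine Finset.sum_congr rfl fun q' _ => ?_
    split_ifs <;> ring
  rw [h2]
  have h3 : 0 ≤ ∑ q : Fin r, ∑ q' : Fin r,
      (if q.val / (2 ^ k - 1) = q'.val / (2 ^ k - 1) then s q * s q' else 0) := by
    have h4 : ∑ q : Fin r, ∑ q' : Fin r,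
        (if q.val / (2 ^ k - 1) = q'.val / (2 ^ k - 1) then s q * s q' else 0) =
        ∑ l ∈ Finset.univ.image (fun q : Fin r => q.val / (2 ^ k - 1)),
          (∑ q ∈ Finset.univ.filter (fun q : Fin r => q.val / (2 ^ k - 1) = l), s q) ^ 2 := by
      rw [← Finset.sum_fiberwise_of_maps_to
        (s := Finset.univ) (t := Finset.univ.image (fun q : Fin r => q.val / (2 ^ k - 1)))
        (g := fun q : Fin r => q.val / (2 ^ k - 1))
        (fun q _ => Finset.mem_image_of_mem _ (Finset.mem_univ q))]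
      refine Finset.sum_congr rfl fun l _ => ?_
      rw [sq, Finset.sum_mul_sum]
      refine Finset.sum_congr rfl fun q hq => ?_
      have hql := (Finset.mem_filter.1 hq).2
      rw [← Finset.sum_filter]
      refine Finset.sum_congr ?_ fun _ _ => rfl
      ext q'
      simp only [Finset.mem_filter, Finset.mem_univ, true_and, hql]
      exact eq_comm
    rw [h4]
    exact Finset.sum_nonneg fun _ _ => sq_nonneg _
  have h5 : (0:ℝ) ≤ 2 ^ k / 4 := by positivity
  have := mul_nonneg h5 h3
  linarith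

end System

end Pool.Agent.H778.CR
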