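import Mathlib
import Pool.Agent.H778.CR.Walsh

/-!
# Set systems of degree `t` and rank `r` with few balanced colourings
-/

set_option autoImplicit false

open Filter Topology Matrix

namespace Pool.Agent.H778.CR

open Pool.Agent.H801R3.SB

/-- the rows of the incidence matrix, as vectors attached to the elements -/
noncomputable def inc {m n : ℕ} (S : Fin m → Finset (Fin n)) (i : Fin n) (j : Fin m) : ℝ :=
  if i ∈ S j then 1 else 0

lemma num_e : (Real.exp 4 * 3) ^ 2 ≤ 30000 := by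
  have h1 : Real.exp 4 = Real.exp 1 ^ 4 := by
    rw [← Real.exp_nat_mul]; norm_num
  rw [h1]
  have h2 := Real.exp_one_lt_d9
  have h3 : Real.exp 1 ^ 4 ≤ (2.7182818286 : ℝ) ^ 4 :=
    pow_le_pow_left₀ (Real.exp_pos _).le h2.le 4
  have h4 : (0:ℝ) ≤ Real.exp 1 ^ 4 := by positivity
  have h5 : (Real.exp 1 ^ 4) ^ 2 ≤ ((2.7182818286 : ℝ) ^ 4) ^ 2 := pow_le_pow_left₀ h4 h3 2
  rw [mul_pow]
  nlinarith

section

variable (k : ℕ) (hk : 1 < 2 ^ k) (L n r : ℕ)

lemma AW_one (p : Fin L × Finset (Fin k)) (q : ℕ) (h : AW k hk L p q = 1) :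
    q / (2 ^ k - 1) = p.1.val ∧ wal (bb k hk q) p.2 = -1 := by
  unfold AW ent at h
  by_cases h1 : q / (2 ^ k - 1) = p.1.val
  · refine ⟨h1, ?_⟩
    by_contra h2
    rw [if_pos h1, if_neg h2] at h
    norm_num at h
  · rw [if_neg h1] at h
    norm_num at h

/-- the system -/
noncomputable def SW (j : Fin (Fintype.card (Fin L × Finset (Fin k)))) : Finset (Fin n) := by
  classical
  exact Finset.univ.filter (fun i : Fin n =>
    AW k hk L ((Fintype.equivFin (Fin L × Finset (Fin k))).symm j) (i.val % r) = 1)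

lemma mem_SW (j : Fin (Fintype.card (Fin L × Finset (Fin k)))) (i : Fin n) :
    i ∈ SW k hk L n r j ↔
      AW k hk L ((Fintype.equivFin (Fin L × Finset (Fin k))).symm j) (i.val % r) = 1 := by
  classical
  simp [SW]

lemma inc_SW (i : Fin n) (j : Fin (Fintype.card (Fin L × Finset (Fin k)))) :
    inc (SW k hk L n r) i j =
      AW k hk L ((Fintype.equivFin (Fin L × Finset (Fin k))).symm j) (i.val % r) := by
  unfold inc
  by_cases h : i ∈ SW k hk L n r j
  · rw [if_pos h]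
    exact ((mem_SW k hk L n r j i).1 h).symm
  · rw [if_neg h]
    have h1 := mt (mem_SW k hk L n r j i).2 h
    rcases AW_zero_one k hk L ((Fintype.equivFin (Fin L × Finset (Fin k))).symm j)
      (i.val % r) with h2 | h2
    · exact h2.symm
    · exact absurd h2 h1

lemma sum_SW (hr : 0 < r) (ε : Fin n → Bool)
    (j : Fin (Fintype.card (Fin L × Finset (Fin k)))) :
    ∑ i ∈ SW k hk L n r j, sg (ε i) = ∑ q : Fin r,
      AW k hk L ((Fintype.equivFin (Fin L × Finset (Fin k))).symm j) q * (cs hr ε q : ℝ) := by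
  classical
  have h1 : ∑ i ∈ SW k hk L n r j, sg (ε i) =
      ∑ i, sg (ε i) * inc (SW k hk L n r) i j := by
    unfold inc
    simp only [mul_ite, mul_one, mul_zero]
    rw [← Finset.sum_filter, Finset.filter_mem_eq_inter, Finset.univ_inter]
  rw [h1]
  have h2 : ∀ q : Fin r, (cs hr ε q : ℝ) = ∑ i, sg (ε i) * cyc n hr i q := by
    intro q
    have := sum_cyc hr ε q
    rw [Finset.sum_apply] at this
    simp only [Pi.smul_apply, smul_eq_mul] at this
    rw [this]
    rfl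
  simp_rw [h2, Finset.mul_sum]
  rw [Finset.sum_comm]
  refine Finset.sum_congr rfl fun i _ => ?_
  rw [inc_SW]
  simp only [cyc, Pi.single_apply]
  rw [Finset.sum_eq_single (⟨i.val % r, Nat.mod_lt _ hr⟩ : Fin r)]
  · simp [mul_comm]
  · intro q _ hq
    simp [hq]
  · intro h
    exact absurd (Finset.mem_univ _) h

lemma deg_SW (hk0 : 0 < k) (i : Fin n) :
    (Finset.univ.filter (fun j => i ∈ SW k hk L n r j)).card ≤ 2 ^ (k - 1) := by
  classical
  obtain ⟨k', rfl⟩ : ∃ k', k = k' + 1 := ⟨k - 1, by omega⟩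
  rw [Nat.add_sub_cancel]
  rw [← col_card (bb (k' + 1) hk (i.val % r)) (bb_ne (k' + 1) hk _)]
  refine Finset.card_le_card_of_injOn
    (fun j => ((Fintype.equivFin (Fin L × Finset (Fin (k' + 1)))).symm j).2) ?_ ?_
  · intro j hj
    have h1 : i ∈ SW (k' + 1) hk L n r j := by simpa using hj
    rw [mem_SW] at h1
    simp only [Finset.coe_filter, Finset.mem_univ, true_and, Set.mem_ofPred_eq]
    exact (AW_one (k' + 1) hk L _ _ h1).2
  · intro j hj j' hj' h
    have h1 : i ∈ SW (k' + 1) hk L n r j := by simpa using hj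
    have h1' : i ∈ SW (k' + 1) hk L n r j' := by simpa using hj'
    rw [mem_SW] at h1 h1'
    have hfst : ((Fintype.equivFin (Fin L × Finset (Fin (k' + 1)))).symm j).1 =
        ((Fintype.equivFin (Fin L × Finset (Fin (k' + 1)))).symm j').1 := by
      have g1 := (AW_one (k' + 1) hk L _ _ h1).1
      have g2 := (AW_one (k' + 1) hk L _ _ h1').1
      apply Fin.ext
      rw [← g1, ← g2]
    exact (Fintype.equivFin (Fin L × Finset (Fin (k' + 1)))).symm.injective
      (Prod.ext hfst h)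

lemma rk_SW (hr : 0 < r) (hn : r ≤ n) (hL : r ≤ L * (2 ^ k - 1)) :
    rk (inc (SW k hk L n r)) = r := by
  classical
  let w : Fin r → Fin (Fintype.card (Fin L × Finset (Fin k))) → ℝ := fun q j =>
    AW k hk L ((Fintype.equivFin (Fin L × Finset (Fin k))).symm j) q
  have hrange : Set.range (inc (SW k hk L n r)) = Set.range w := by
    ext x
    constructor
    · rintro ⟨i, rfl⟩
      refine ⟨⟨i.val % r, Nat.mod_lt _ hr⟩, ?_⟩
      funext j
      rw [inc_SW]
    · rintro ⟨q, rfl⟩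
      refine ⟨⟨q.val, lt_of_lt_of_le q.isLt hn⟩, ?_⟩
      funext j
      rw [inc_SW]
      simp only [w]
      rw [Nat.mod_eq_of_lt q.isLt]
  have hli : LinearIndependent ℝ w := by
    rw [Fintype.linearIndependent_iff]
    intro g hg
    have h1 : ∀ p : Fin L × Finset (Fin k), ∑ q : Fin r, AW k hk L p q * g q = 0 := by
      intro p
      have h2 := congrFun hg (Fintype.equivFin (Fin L × Finset (Fin k)) p)
      rw [Finset.sum_apply] at h2
      simp only [Pi.smul_apply, smul_eq_mul, Pi.zero_apply, w, Equiv.symm_apply_apply] at h2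
      rw [← h2]
      exact Finset.sum_congr rfl fun q _ => mul_comm _ _
    have h3 := sing k hk L r hL g
    simp only [h1] at h3
    simp only [ne_eq, OfNat.ofNat_ne_zero, not_false_eq_true, zero_pow, Finset.sum_const_zero]
      at h3
    have h4 : ∑ q, g q ^ 2 ≤ 0 := by
      have h5 : (0:ℝ) < 2 ^ k / 4 := by positivity
      by_contra hcon
      push Not at hcon
      have := mul_pos h5 hcon
      linarith
    have h5 : ∑ q, g q ^ 2 = 0 := le_antisymm h4 (Finset.sum_nonneg fun _ _ => sq_nonneg _)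
    intro q
    have h6 := (Finset.sum_eq_zero_iff_of_nonneg (fun q _ => sq_nonneg (g q))).1 h5 q
      (Finset.mem_univ q)
    exact pow_eq_zero_iff (two_ne_zero) |>.1 h6
  unfold rk
  rw [hrange, finrank_span_eq_card hli, Fintype.card_fin]

end

/-- **Sharpness for set systems.** -/
theorem bf_sharp (t r n : ℕ) (ht : 1 ≤ t) (hr : 2 * t ≤ r) (hn : r ≤ n) :
    ∃ (m : ℕ) (S : Fin m → Finset (Fin n)),
      (∀ i, (Finset.univ.filter (fun j => i ∈ S j)).card ≤ t) ∧ rk (inc S) = r ∧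
      ∀ D : ℝ, 1 ≤ D →
        (Nat.card {χ : Fin n → ℤˣ // ∀ j, |∑ i ∈ S j, ((χ i : ℤ) : ℝ)| ≤ D * √(t:ℝ)} : ℝ) ≤
          2 ^ n * (30000 * D ^ 2 * r / n) ^ ((r : ℝ) / 2) := by
  classical
  set k : ℕ := Nat.log 2 t + 1 with hkdef
  have h1 : 2 ^ (k - 1) ≤ t := by
    rw [hkdef, Nat.add_sub_cancel]
    exact Nat.pow_log_le_self 2 (by omega)
  have h2 : t < 2 ^ k := by
    rw [hkdef]
    exact Nat.lt_pow_succ_log_self (by norm_num) t
  have hk0 : 0 < k := by omega
  have hk : 1 < 2 ^ k := Nat.one_lt_two_pow (by omega)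
  have h2k : 2 ^ k = 2 * 2 ^ (k - 1) := by
    rw [← pow_succ']
    congr 1
  set c : ℕ := 2 ^ k - 1 with hc
  have hc0 : 0 < c := by omega
  have hcr : c ≤ r := by omega
  set L : ℕ := r / c + 1 with hLdef
  have hL : r ≤ L * c := by
    rw [hLdef]
    have := Nat.lt_div_mul_add (a := r) hc0
    rw [add_mul, one_mul]
    omega
  have hL2 : L * c ≤ 2 * r := by
    rw [hLdef, add_mul, one_mul]
    have := Nat.div_mul_le_self r c
    omega
  have hL3 : L * 2 ^ k ≤ 4 * r := by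
    have : 2 ^ k ≤ 2 * c := by omega
    calc L * 2 ^ k ≤ L * (2 * c) := Nat.mul_le_mul_left _ this
      _ = 2 * (L * c) := by ring
      _ ≤ 4 * r := by omega
  have hr0 : 0 < r := by omega
  refine ⟨_, SW k hk L n r, fun i => (deg_SW k hk L n r hk0 i).trans h1,
    rk_SW k hk L n r hr0 hn hL, fun D hD => ?_⟩
  rw [card_units (fun e => ∀ j, |∑ i ∈ SW k hk L n r j, e i| ≤ D * √(t:ℝ))]
  have hsub : (Finset.univ.filter (fun ε : Fin n → Bool =>
      ∀ j, |∑ i ∈ SW k hk L n r j, (fun i => sg (ε i)) i| ≤ D * √(t:ℝ))) ⊆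
      (Finset.univ : Finset (Fin n → Bool)).filter
      (fun ε => ∑ j, |(cs hr0 ε j : ℝ)| ≤ 4 * D * r) := by
    intro ε hε
    simp only [Finset.mem_filter, Finset.mem_univ, true_and] at hε ⊢
    have h3 : ∀ p : Fin L × Finset (Fin k),
        (∑ q : Fin r, AW k hk L p q * (cs hr0 ε q : ℝ)) ^ 2 ≤ D ^ 2 * t := by
      intro p
      have h4 := hε (Fintype.equivFin (Fin L × Finset (Fin k)) p)
      rw [sum_SW k hk L n r hr0, Equiv.symm_apply_apply] at h4
      rw [← sq_abs]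
      calc |∑ q : Fin r, AW k hk L p q * (cs hr0 ε q : ℝ)| ^ 2 ≤ (D * √(t:ℝ)) ^ 2 :=
            pow_le_pow_left₀ (abs_nonneg _) h4 2
        _ = D ^ 2 * t := by rw [mul_pow, Real.sq_sqrt (by positivity)]
    have h4 := sing k hk L r hL (fun q => (cs hr0 ε q : ℝ))
    have h5 : ∑ p : Fin L × Finset (Fin k),
        (∑ q : Fin r, AW k hk L p q * (cs hr0 ε q : ℝ)) ^ 2 ≤ (L * 2 ^ k : ℝ) * (D ^ 2 * t) := by
      refine (Finset.sum_le_sum fun p _ => h3 p).trans (le_of_eq ?_)
      rw [Finset.sum_const, nsmul_eq_mul, Finset.card_univ, Fintype.card_prod,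
        Fintype.card_finset, Fintype.card_fin, Fintype.card_fin]
      push_cast
      rfl
    have h6 : (2 ^ k / 4 : ℝ) * ∑ q, (cs hr0 ε q : ℝ) ^ 2 ≤ (2 ^ k / 4 : ℝ) * (16 * r * D ^ 2) := by
      refine (h4.trans h5).trans ?_
      have h7 : (L : ℝ) * 2 ^ k ≤ 4 * r := by exact_mod_cast hL3
      have h8 : (t : ℝ) ≤ 2 ^ k := by exact_mod_cast h2.le
      have hD2 : 0 ≤ D ^ 2 := sq_nonneg D
      calc (L * 2 ^ k : ℝ) * (D ^ 2 * t) ≤ (4 * r) * (D ^ 2 * 2 ^ k) := by gcongr
        _ = _ := by ring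
    have h7 : ∑ q, (cs hr0 ε q : ℝ) ^ 2 ≤ 16 * r * D ^ 2 :=
      le_of_mul_le_mul_left h6 (by positivity)
    have h8 : (∑ q, |(cs hr0 ε q : ℝ)|) ^ 2 ≤ (4 * D * r) ^ 2 := by
      have h9 := sq_sum_le_card_mul_sum_sq (s := (Finset.univ : Finset (Fin r)))
        (f := fun q => |(cs hr0 ε q : ℝ)|)
      simp only [sq_abs, Finset.card_univ, Fintype.card_fin] at h9
      refine h9.trans ?_
      have hr' : (0:ℝ) ≤ r := by positivity
      calc (r:ℝ) * ∑ q, (cs hr0 ε q : ℝ) ^ 2 ≤ r * (16 * r * D ^ 2) :=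
            mul_le_mul_of_nonneg_left h7 hr'
        _ = _ := by ring
    exact le_of_sq_le_sq h8 (by positivity)
  have h3 := l1_count (n := n) hr0 D hD 4
  have hn' : (0:ℝ) < n := by
    have : 0 < n := lt_of_lt_of_le hr0 hn
    exact_mod_cast this
  have hsn : 0 < √(n:ℝ) := Real.sqrt_pos.2 hn'
  have h4 : (Real.exp 4 * (3 * D) * √(r:ℝ)) ^ r ≤
      (30000 * D ^ 2 * r / n) ^ ((r : ℝ) / 2) * √(n:ℝ) ^ r := by
    rw [rpow_half _ (by positivity), ← mul_pow, ← Real.sqrt_mul (by positivity)]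
    apply pow_le_pow_left₀ (by positivity)
    have e2 : 30000 * D ^ 2 * r / n * n = 30000 * D ^ 2 * r := by
      field_simp
    rw [e2]
    apply Real.le_sqrt_of_sq_le
    have e3 : (Real.exp 4 * (3 * D) * √(r:ℝ)) ^ 2 = (Real.exp 4 * 3) ^ 2 * D ^ 2 * r := by
      rw [mul_pow, Real.sq_sqrt (by positivity)]
      ring
    rw [e3]
    have := num_e
    gcongr
  have h5 : (0:ℝ) < √(n:ℝ) ^ r := by positivity
  refine le_of_mul_le_mul_right ?_ h5
  refine le_trans (mul_le_mul_of_nonneg_right (Nat.cast_le.2 (Finset.card_le_card ?_)) h5.le)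
    (h3.trans ?_)
  · intro ε hε
    refine hsub ?_
    simpa using hε
  · calc 2 ^ n * (Real.exp 4 * (3 * D) * √(r:ℝ)) ^ r
        ≤ 2 ^ n * ((30000 * D ^ 2 * r / n) ^ ((r : ℝ) / 2) * √(n:ℝ) ^ r) :=
          mul_le_mul_of_nonneg_left h4 (by positivity)
      _ = 2 ^ n * (30000 * D ^ 2 * r / n) ^ ((r : ℝ) / 2) * √(n:ℝ) ^ r := by ring

end Pool.Agent.H778.CR
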